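import Pool.Agent.Results.MP_e6aa12_ag.EveryNumberOfPoints
import Pool.Agent.Results.MP_e6aa12_ag.AllCharacteristicsWindow
import Pool.Agent.L0h10.FP.Conv

set_option autoImplicit false

/-!
# General collisions of `r ≥ 10` fat points: a bound in ALL degrees, without exceptions

Let `E = (d + 2).choose 2 - r (m + 1).choose 2`. For every `r ≥ 10`, every `m`, every degree `d`, every field of
characteristic zero and all `(c, a)` outside a hypersurface the space of the forms of degree `d` on the scheme
with ideal `(y - (a₀ + a₁ x + ... + a_(r-1) x ^ (r-1)), (x - c) ^ r) ^ m` has dimension at least `max (0, E)`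
and at most `max (0, E) + max (0, (d + 1 - |E|) / 2)`. For `r = 10, …, 16` this holds over every field, of any
characteristic.

Proof. By the starting files the dimensions `v(d)` are known for all `d` but one. They satisfy
`v(d + 1) - v(d) ≥ v(d) - v(d - 1) + 1` if `v(d) > v(d - 1)`: restrict the forms to the line at infinity.
-/

namespace Pool.Agent.Results.MP_e6aa12_ag.DefectBound

open Polynomial

universe u

/-- The forms of degree `d` in three variables whose dehomogenisation lies in the ideal
`(y - ∑ a_j x ^ j, (x - c) ^ r) ^ m` of `k[x][y]`. -/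
noncomputable def forms {k : Type u} [Field k] {r : ℕ} (m : ℕ) (c : k) (a : Fin r → k) (d : ℕ) :
    Submodule k (MvPolynomial (Fin 3) k) :=
  MvPolynomial.homogeneousSubmodule (Fin 3) k d ⊓
    (Submodule.restrictScalars k
      ((Ideal.span {X - C (∑ j : Fin r, C (a j) * X ^ (j : ℕ)), C ((X - C c) ^ r)} :
        Ideal k[X][X]) ^ m)).comap
      (MvPolynomial.aeval ![C X, X, 1] :
        MvPolynomial (Fin 3) k →ₐ[k] k[X][X]).toLinearMap

/-- The expected number: the number of the forms of degree `d` minus the number of the conditions. -/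
def E (r m d : ℕ) : ℤ := (Nat.choose (d + 2) 2 : ℤ) - r * Nat.choose (m + 1) 2

/-- The dimension is at least `max (0, E)`, and twice the dimension is at most
`2 max (0, E) + max (0, d + 1 - |E|)`, in every degree `d`. -/
def Bound {k : Type u} [Field k] (r m : ℕ) (c : k) (a : Fin r → k) : Prop :=
  ∀ d : ℕ, max 0 (E r m d) ≤ (Module.finrank k (forms m c a d) : ℤ) ∧
    2 * (Module.finrank k (forms m c a d) : ℤ) ≤
      2 * max 0 (E r m d) + max 0 ((d : ℤ) + 1 - |E r m d|)

theorem bound_of {k : Type u} [Field k] {r m d₀ : ℕ} (hr : 10 ≤ r) (c : k) (a : Fin r → k)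
    (h : ∀ d : ℕ, d ≠ d₀ → Module.finrank k (forms m c a d) =
      Nat.choose (d + 2) 2 - r * Nat.choose (m + 1) 2) : Bound r m c a := by
  obtain ⟨I, hI⟩ : ∃ I : Ideal (MvPolynomial (Fin 3) k), I =
      Ideal.comap (MvPolynomial.aeval ![C X, X, 1] : MvPolynomial (Fin 3) k →ₐ[k] k[X][X])
        ((Ideal.span {X - C (∑ j : Fin r, C (a j) * X ^ (j : ℕ)), C ((X - C c) ^ r)} :
          Ideal k[X][X]) ^ m) := ⟨_, rfl⟩
  have hform : ∀ d : ℕ, forms m c a d = Pool.Agent.L0h10.FP.piece I d := by
    intro d
    rw [hI]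
    rfl
  have hz : ∀ f, MvPolynomial.X 2 * f ∈ I → f ∈ I := by
    intro f hf
    rw [hI, Ideal.mem_comap, map_mul, MvPolynomial.aeval_X] at hf
    rw [hI, Ideal.mem_comap]
    have e : (![C X, X, 1] : Fin 3 → k[X][X]) 2 = 1 := rfl
    rwa [e, one_mul] at hf
  have hconv : ∀ e : ℕ, Module.finrank k (forms m c a e) < Module.finrank k (forms m c a (e + 1)) →
      2 * Module.finrank k (forms m c a (e + 1)) + 1 ≤
        Module.finrank k (forms m c a (e + 2)) + Module.finrank k (forms m c a e) := by
    intro e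
    rw [hform, hform, hform]
    exact Pool.Agent.L0h10.FP.convex I hz e
  intro d
  refine ⟨max_le (Nat.cast_nonneg _) (Pool.Agent.L0h10.FP.arith_low (d₀ := d₀)
    (v := fun d => Module.finrank k (forms m c a d)) h hconv d), ?_⟩
  refine Pool.Agent.L0h10.FP.arith (d₀ := d₀) hr (v := fun d => Module.finrank k (forms m c a d))
    h ?_ ?_ hconv d
  · show Module.finrank k (forms m c a 0) ≤ 1
    rw [hform]
    exact Pool.Agent.L0h10.FP.piece_zero I
  · intro d
    show Module.finrank k (forms m c a d) ≤ Module.finrank k (forms m c a (d + 1))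
    rw [hform, hform]
    exact Pool.Agent.L0h10.FP.piece_mono I d

theorem result :
    -- characteristic zero, every number of points
    (∀ r m : ℕ, 10 ≤ r → ∀ (k : Type u) [Field k] [CharZero k],
      ∃ F : MvPolynomial (Fin (r + 1)) k, F ≠ 0 ∧
        ∀ (c : k) (a : Fin r → k), MvPolynomial.eval (Fin.cons c a : Fin (r + 1) → k) F ≠ 0 →
          Bound r m c a) ∧
    -- ten to sixteen points, every characteristic
    (∀ r m : ℕ, 10 ≤ r → r ≤ 16 → ∀ (k : Type u) [Field k],
      ∃ F : MvPolynomial (Fin (r + 1)) k, F ≠ 0 ∧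
        ∀ (c : k) (a : Fin r → k), MvPolynomial.eval (Fin.cons c a : Fin (r + 1) → k) F ≠ 0 →
          Bound r m c a) := by
  refine ⟨fun r m hr k _ _ => ?_, fun r m hr hr' k _ => ?_⟩
  · obtain ⟨d₀, h⟩ := Pool.Agent.Results.MP_e6aa12_ag.EveryNumberOfPoints.result.{u}.1 r m hr
    obtain ⟨F, hF, hF'⟩ := h k
    exact ⟨F, hF, fun c a hc => bound_of hr c a fun d hd => hF' c a hc d hd⟩
  · have hA := Pool.Agent.Results.MP_e6aa12_ag.AllCharacteristicsWindow.result.{u}
    rcases Nat.lt_or_ge r 16 with h16 | h16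
    · obtain ⟨d₀, h⟩ := hA.2.2.1 r m hr (by omega)
      obtain ⟨F, hF, hF'⟩ := h k
      exact ⟨F, hF, fun c a hc => bound_of hr c a fun d hd => hF' c a hc d hd⟩
    · obtain rfl : r = 16 := le_antisymm hr' h16
      obtain ⟨F, hF, hF'⟩ := hA.2.1 m k
      exact ⟨F, hF, fun c a hc => bound_of (d₀ := 0) hr c a fun d _ => hF' c a hc d (Set.mem_univ d)⟩

end Pool.Agent.Results.MP_e6aa12_ag.DefectBound
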