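import Pool.Agent.TH183.QS.Fin
import Pool.Agent.Results.MP_e6aa12_ag.CollisionAllButOne
import Pool.Agent.L0h69.FM.Exp
import Pool.Agent.L0h69.FM.Fej
import Pool.Agent.L0h69.FM.Poly

set_option autoImplicit false

/-!
# General collisions of fat points: every multiplicity, almost all numbers of points

For every `A` there is `θ < 1` such that for every `ε > 0` and every progression `a + q t`, `t < L`, with
`a / q` large, `(a / q) ^ θ ≤ L ≤ a / q` and `q ≤ (a / q) ^ A`, and for EVERY `m ≤ (a / q) ^ A`, `m ≥ 1`: for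
all but `ε L` of the members `r` of the progression the space of the forms of degree `d` on the scheme with
ideal `(y - (a₀ + a₁ x + ... + a_(r-1) x ^ (r-1)), (x - c) ^ r) ^ m` has the expected dimension in EVERY
degree `d`, over every field of characteristic zero and every algebraically closed field of characteristic
greater than `r (m + 2)`, and for all `(c, a)` outside a hypersurface.

Proof. By the starting files (TH183, H932R6) a bad pair `(r, m)` puts `(m + 1/2) √r` near `1/2` modulo one.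
The exponential sums over `r` are estimated by iterated Weyl differencing (H221R2), uniformly in the
multiplicity `m ≤ r ^ A`, and the Fejer kernel bounds the number of bad `r`.

The same for the pairs `(r, P(r))`, `P` a real polynomial with positive leading coefficient, `r` in short
intervals: `(P(r) + 1/2) √r` is a generalised polynomial, whose exponential sums are small (Y961).
-/

namespace Pool.Agent.Results.MP_e6aa12_ag.FixedMultiplicity

open Polynomial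

/-- The forms of degree `d` in three variables whose dehomogenisation lies in the ideal
`(y - ∑ a_j x ^ j, (x - c) ^ r) ^ m` of `k[x][y]`. -/
noncomputable def forms {k : Type} [Field k] {r : ℕ} (m : ℕ) (c : k) (a : Fin r → k) (d : ℕ) :
    Submodule k (MvPolynomial (Fin 3) k) :=
  MvPolynomial.homogeneousSubmodule (Fin 3) k d ⊓
    (Submodule.restrictScalars k
      ((Ideal.span {X - C (∑ j : Fin r, C (a j) * X ^ (j : ℕ)), C ((X - C c) ^ r)} :
        Ideal k[X][X]) ^ m)).comap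
      (MvPolynomial.aeval ![C X, X, 1] :
        MvPolynomial (Fin 3) k →ₐ[k] k[X][X]).toLinearMap

/-- Over every field of characteristic zero and over every algebraically closed field in which
`1, 2, ..., r (m + 2)` are not zero, for all `(c, a)` outside a hypersurface, the space of forms has the
expected dimension in every degree. -/
def AllDegrees (r m : ℕ) : Prop :=
  ∀ (k : Type) [Field k],
    (CharZero k ∨ (IsAlgClosed k ∧ ∀ j : ℕ, 0 < j → j ≤ r * (m + 2) → (j : k) ≠ 0)) →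
    ∃ F : MvPolynomial (Fin (r + 1)) k, F ≠ 0 ∧
      ∀ (c : k) (a : Fin r → k), MvPolynomial.eval (Fin.cons c a : Fin (r + 1) → k) F ≠ 0 →
        ∀ d : ℕ, Module.finrank k (forms m c a d) = Nat.choose (d + 2) 2 - r * Nat.choose (m + 1) 2

/-- a bad number of points puts `(m + 1/2) √r` near `1/2` modulo one -/
theorem near_of_bad (A : ℕ) {ε : ℝ} (hε : 0 < ε) : ∃ N : ℕ, ∀ r : ℕ, N ≤ r → ∀ m : ℕ, 1 ≤ m →
    m ≤ r ^ A → ¬ AllDegrees r m → ∃ z : ℤ, |((m + 1 / 2) * √(r : ℝ) - 1 / 2) - z| ≤ ε := by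
  obtain ⟨N, -, h⟩ := Pool.Agent.TH183.QS.coll_large.{0} hε
  obtain ⟨N', h'⟩ := Pool.Agent.Results.MP_e6aa12_ag.CollisionAllButOne.result A ε hε
  refine ⟨max N N', fun r hr m hm1 hmA hbad => ?_⟩
  by_contra hcon
  push Not at hcon
  have key : ∀ d : ℕ, ε ≤ |2 * (d : ℝ) + 3 - √(r : ℝ) - 2 * (√(r : ℝ) * m)| := by
    intro d
    have h1 := hcon ((d : ℤ) + 1)
    push_cast at h1
    have h2 : |2 * (d : ℝ) + 3 - √(r : ℝ) - 2 * (√(r : ℝ) * m)| =
        2 * |((m + 1 / 2) * √(r : ℝ) - 1 / 2) - (d + 1)| := by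
      rw [← abs_neg, show -(2 * (d : ℝ) + 3 - √(r : ℝ) - 2 * (√(r : ℝ) * m)) =
        2 * (((m + 1 / 2) * √(r : ℝ) - 1 / 2) - (d + 1)) by ring, abs_mul, abs_two]
    rw [h2]
    linarith [abs_nonneg (((m + 1 / 2) * √(r : ℝ) - 1 / 2) - ((d : ℝ) + 1))]
  apply hbad
  intro k _ hk
  rcases hk with hk | ⟨hk, hchar⟩
  · obtain ⟨F, hF, hF'⟩ := h r ((le_max_left _ _).trans hr) m k
    exact ⟨F, hF, fun c a hc d => hF' c a hc d (key d)⟩
  · obtain ⟨F, hF, hF'⟩ := h' r ((le_max_right _ _).trans hr) m hm1 hmA k hchar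
    exact ⟨F, hF, fun c a hc d => hF' c a hc d (key d)⟩

/-- more than `2 m + 100` points (starting files) -/
theorem large_ok {r m : ℕ} (hm : 1 ≤ m) (hr : 2 * m + 100 ≤ r) : AllDegrees r m := by
  intro k _ hk
  have hr10 : 10 ≤ r := by omega
  have hrR : (2 : ℝ) * m + 100 ≤ r := by exact_mod_cast hr
  have hs : √(r : ℝ) * √(r : ℝ) = r := Real.mul_self_sqrt (by linarith [(Nat.cast_nonneg m : (0 : ℝ) ≤ m)])
  have h1 : (m : ℝ) ≤ r - 6 * Real.sqrt r + 11 := by nlinarith [sq_nonneg (√(r : ℝ) - 6)]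
  obtain ⟨hinf, hchar⟩ : Infinite k ∧ ∀ q : ℕ, 0 < q → q ≤ r * (m + 1) → (q : k) ≠ 0 := by
    rcases hk with hk | ⟨hk, hchar⟩
    · exact ⟨inferInstance, fun q hq _ => by exact_mod_cast hq.ne'⟩
    · exact ⟨IsAlgClosed.instInfinite, fun q hq hle => hchar q hq
        (hle.trans (Nat.mul_le_mul_left r (by omega)))⟩
  exact H932R2.collision_main hr10 hm (H932R2.cond_of_le hr10 h1) hchar

/-- multiplicities given by a polynomial of the number of points -/
theorem poly_part (P : ℝ[X]) (hP : 0 < P.leadingCoeff) : ∃ θ : ℝ, 0 < θ ∧ θ < 1 ∧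
    ∀ ε : ℝ, 0 < ε → ∃ N : ℕ, ∀ R L : ℕ, N ≤ R → L ≤ R → (R : ℝ) ^ θ ≤ L →
    ({r : ℕ | R ≤ r ∧ r < R + L ∧
      ∃ m : ℕ, 1 ≤ m ∧ (m : ℝ) = P.eval (r : ℝ) ∧ ¬ AllDegrees r m}.ncard : ℝ) ≤ ε * L := by
  classical
  obtain ⟨θ, hθ0, hθ1, hs⟩ := Pool.Agent.L0h69.FM.Poly.sums P hP
  refine ⟨θ, hθ0, hθ1, fun ε hε => ?_⟩
  obtain ⟨K, hK⟩ := exists_nat_ge (8 / ε)
  have hK0 : (0 : ℝ) < K := lt_of_lt_of_le (by positivity) hK
  have hK1 : 1 ≤ K := by exact_mod_cast hK0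
  obtain ⟨N1, hN1⟩ := hs K (ε / 8) (by positivity)
  obtain ⟨N2, hN2⟩ := near_of_bad (P.natDegree + 1) (show (0 : ℝ) < 1 / (8 * K) by positivity)
  have hdeg : P.degree < (X ^ (P.natDegree + 1) : ℝ[X]).degree := by
    rw [degree_X_pow]
    refine lt_of_le_of_lt degree_le_natDegree ?_
    exact_mod_cast Nat.lt_succ_self _
  have hlim := Polynomial.div_tendsto_atTop_zero_of_degree_lt P (X ^ (P.natDegree + 1)) hdeg
  have hev : ∀ᶠ x : ℝ in Filter.atTop, P.eval x / (X ^ (P.natDegree + 1) : ℝ[X]).eval x ≤ 1 :=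
    (hlim.eventually (gt_mem_nhds (show (0 : ℝ) < 1 by norm_num))).mono fun x hx => le_of_lt hx
  obtain ⟨Z, hZ⟩ := Filter.eventually_atTop.1 hev
  refine ⟨max (max N1 N2) (max ⌈Z⌉₊ 1), fun R L hR hLR hL => ?_⟩
  have hR1 : N1 ≤ R := ((le_max_left _ _).trans (le_max_left _ _)).trans hR
  have hR2 : N2 ≤ R := ((le_max_right _ _).trans (le_max_left _ _)).trans hR
  have hR3 : ⌈Z⌉₊ ≤ R := ((le_max_left _ _).trans (le_max_right _ _)).trans hR
  have hR4 : 1 ≤ R := ((le_max_right _ _).trans (le_max_right _ _)).trans hR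
  have hset : {r : ℕ | R ≤ r ∧ r < R + L ∧
      ∃ m : ℕ, 1 ≤ m ∧ (m : ℝ) = P.eval (r : ℝ) ∧ ¬ AllDegrees r m} =
      (fun t => R + t) '' (↑((Finset.range L).filter fun t =>
        ∃ m : ℕ, 1 ≤ m ∧ (m : ℝ) = P.eval ((R + t : ℕ) : ℝ) ∧ ¬ AllDegrees (R + t) m) : Set ℕ) := by
    ext r
    simp only [Set.mem_ofPred_eq, Set.mem_image, Finset.coe_filter, Finset.mem_range]
    constructor
    · rintro ⟨h3, h4, h5⟩
      have h6 : R + (r - R) = r := by omega
      refine ⟨r - R, ⟨by omega, ?_⟩, h6⟩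
      rw [h6]
      exact h5
    · rintro ⟨t, ⟨h3, h4⟩, rfl⟩
      exact ⟨by omega, by omega, h4⟩
  rw [hset, Set.ncard_image_of_injective _ (fun x y hxy => by simpa using hxy),
    Set.ncard_coe_finset]
  have hcount := Pool.Agent.L0h69.FM.count_near L K hK1
    (fun n => (P.eval ((R : ℝ) + n) + 1 / 2) * √((R : ℝ) + n) - 1 / 2) (ε / 8 * L)
    (by
      intro h hh0 hhK
      have h1 := hN1 R L hR1 hLR hL h hh0 hhK
      have h2 : ∑ n ∈ Finset.range L, Pool.Agent.H469R2.NK.e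
          (h * ((P.eval ((R : ℝ) + n) + 1 / 2) * √((R : ℝ) + n) - 1 / 2)) =
          (∑ n ∈ Finset.range L, Pool.Agent.H469R2.NK.e (h * ((P.eval ((R : ℝ) + n) + 1 / 2) * √((R : ℝ) + n)))) *
            Pool.Agent.H469R2.NK.e (-(h / 2)) := by
        rw [Finset.sum_mul]
        refine Finset.sum_congr rfl fun n _ => ?_
        rw [← Pool.Agent.H469R2.NK.e_add]
        congr 1; ring
      rw [h2, norm_mul, Pool.Agent.H469R2.NK.norm_e, mul_one]
      exact h1)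
    ((Finset.range L).filter fun t =>
      ∃ m : ℕ, 1 ≤ m ∧ (m : ℝ) = P.eval ((R + t : ℕ) : ℝ) ∧ ¬ AllDegrees (R + t) m)
    (Finset.filter_subset _ _)
    (by
      intro t ht
      obtain ⟨m, hm1, hm2, hbad⟩ := (Finset.mem_filter.1 ht).2
      have hx0 : (0 : ℝ) < ((R + t : ℕ) : ℝ) := by
        have : 0 < R + t := by omega
        exact_mod_cast this
      have hZx : Z ≤ ((R + t : ℕ) : ℝ) :=
        (Nat.le_ceil Z).trans (by exact_mod_cast hR3.trans (Nat.le_add_right _ _))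
      have h3 := hZ _ hZx
      rw [eval_pow, eval_X, div_le_one (by positivity), ← hm2] at h3
      have hmA : m ≤ (R + t) ^ (P.natDegree + 1) := by exact_mod_cast h3
      obtain ⟨z, hz⟩ := hN2 (R + t) (hR2.trans (Nat.le_add_right _ _)) m hm1 hmA hbad
      refine ⟨z, ?_⟩
      rw [hm2] at hz
      push_cast at hz
      exact hz)
  refine hcount.trans ?_
  have h3 : 4 / (K : ℝ) ≤ ε / 2 := by
    rw [div_le_iff₀ hK0]
    rw [div_le_iff₀ hε] at hK
    linarith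
  have h4 : (0 : ℝ) ≤ L := Nat.cast_nonneg L
  have h5 := mul_le_mul_of_nonneg_right h3 h4
  linarith

/-- **Main result.** (1) Progressions of numbers of points. (2) For every `m`, `1 ≤ m ≤ x ^ A`, all but `ε x`
of the numbers of points `r < x`. (3) For every `m ≥ 1`, all `r ≥ 10` but at most `ε m + C(ε)`.
(4) The pairs `(r, P(r))`, `P` a real polynomial with positive leading coefficient. -/
theorem result :
    (∀ A : ℕ, ∃ θ : ℝ, 0 < θ ∧ θ < 1 ∧ ∀ ε : ℝ, 0 < ε → ∃ N : ℕ, ∀ a q L m : ℕ,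
      1 ≤ q → N * q ≤ a → L * q ≤ a → ((a : ℝ) / q) ^ θ ≤ L →
      (q : ℝ) ≤ ((a : ℝ) / q) ^ A → 1 ≤ m → (m : ℝ) ≤ ((a : ℝ) / q) ^ A →
      ({t : ℕ | t < L ∧ ¬ AllDegrees (a + q * t) m}.ncard : ℝ) ≤ ε * L) ∧
    (∀ (A : ℕ) (ε : ℝ), 0 < ε → ∃ N : ℕ, ∀ x : ℕ, N ≤ x → ∀ m : ℕ, 1 ≤ m → m ≤ x ^ A →
      ({r : ℕ | r < x ∧ ¬ AllDegrees r m}.ncard : ℝ) ≤ ε * x) ∧
    (∀ ε : ℝ, 0 < ε → ∃ C : ℕ, ∀ m : ℕ, 1 ≤ m → {r : ℕ | 10 ≤ r ∧ ¬ AllDegrees r m}.Finite ∧
      ({r : ℕ | 10 ≤ r ∧ ¬ AllDegrees r m}.ncard : ℝ) ≤ ε * m + C) ∧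
    (∀ P : ℝ[X], 0 < P.leadingCoeff → ∃ θ : ℝ, 0 < θ ∧ θ < 1 ∧
      ∀ ε : ℝ, 0 < ε → ∃ N : ℕ, ∀ R L : ℕ, N ≤ R → L ≤ R → (R : ℝ) ^ θ ≤ L →
      ({r : ℕ | R ≤ r ∧ r < R + L ∧
        ∃ m : ℕ, 1 ≤ m ∧ (m : ℝ) = P.eval (r : ℝ) ∧ ¬ AllDegrees r m}.ncard : ℝ) ≤ ε * L) := by
  have main : ∀ A : ℕ, ∃ θ : ℝ, 0 < θ ∧ θ < 1 ∧ ∀ ε : ℝ, 0 < ε → ∃ N : ℕ, ∀ a q L m : ℕ,
      1 ≤ q → N * q ≤ a → L * q ≤ a → ((a : ℝ) / q) ^ θ ≤ L →
      (q : ℝ) ≤ ((a : ℝ) / q) ^ A → 1 ≤ m → (m : ℝ) ≤ ((a : ℝ) / q) ^ A →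
      ({t : ℕ | t < L ∧ ¬ AllDegrees (a + q * t) m}.ncard : ℝ) ≤ ε * L := by
    classical
    intro A
    obtain ⟨θ, hθ0, hθ1, hprog⟩ := Pool.Agent.L0h69.FM.prog_bound A
    refine ⟨θ, hθ0, hθ1, fun ε hε => ?_⟩
    obtain ⟨K, hK⟩ := exists_nat_ge (8 / ε)
    have hK0 : (0 : ℝ) < K := lt_of_lt_of_le (by positivity) hK
    have hK1 : 1 ≤ K := by
      by_contra hcon
      have : K = 0 := by omega
      rw [this] at hK0
      simp at hK0
    obtain ⟨N1, hN1⟩ := hprog K (ε / 8) (by positivity)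
    obtain ⟨N2, hN2⟩ := near_of_bad A (show (0 : ℝ) < 1 / (8 * K) by positivity)
    refine ⟨max N1 N2, fun a q L m hq hNa hLa hL hqA hm1 hmA => ?_⟩
    have hma : m ≤ a ^ A := by
      have hqR : (1 : ℝ) ≤ q := by exact_mod_cast hq
      have h1 : (a : ℝ) / q ≤ a := div_le_self (Nat.cast_nonneg a) hqR
      have h2 : ((a : ℝ) / q) ^ A ≤ (a : ℝ) ^ A := pow_le_pow_left₀ (by positivity) h1 A
      exact_mod_cast hmA.trans h2
    have ha1 : N1 * q ≤ a := (Nat.mul_le_mul_right q (le_max_left _ _)).trans hNa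
    have ha2 : N2 ≤ a := by
      calc N2 = N2 * 1 := (mul_one _).symm
        _ ≤ max N1 N2 * q := Nat.mul_le_mul (le_max_right _ _) hq
        _ ≤ a := hNa
    have hset : {t : ℕ | t < L ∧ ¬ AllDegrees (a + q * t) m} =
        ↑((Finset.range L).filter fun t => ¬ AllDegrees (a + q * t) m) := by
      ext t
      simp only [Set.mem_ofPred_eq, Finset.coe_filter, Finset.mem_range]
    rw [hset, Set.ncard_coe_finset]
    have hcount := Pool.Agent.L0h69.FM.count_near L K hK1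
      (fun n => (m + 1 / 2) * √((a : ℝ) + q * n) - 1 / 2) (ε / 8 * L)
      (by
        intro h hh0 hhK
        have h1 := hN1 a q L m hq ha1 hLa hL hqA hmA h hh0 hhK
        have h2 : ∑ n ∈ Finset.range L, Pool.Agent.H469R2.NK.e
            (h * ((m + 1 / 2) * √((a : ℝ) + q * n) - 1 / 2)) =
            (∑ n ∈ Finset.range L, Pool.Agent.H469R2.NK.e
              (h * ((m + 1 / 2) * √((a : ℝ) + q * n)))) *
              Pool.Agent.H469R2.NK.e (-(h / 2)) := by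
          rw [Finset.sum_mul]
          refine Finset.sum_congr rfl fun n _ => ?_
          rw [← Pool.Agent.H469R2.NK.e_add]
          congr 1; ring
        rw [h2, norm_mul, Pool.Agent.H469R2.NK.norm_e, mul_one]
        exact h1)
      ((Finset.range L).filter fun t => ¬ AllDegrees (a + q * t) m)
      (Finset.filter_subset _ _)
      (by
        intro t ht
        obtain ⟨z, hz⟩ := hN2 (a + q * t) (by omega) m hm1
          (hma.trans (Nat.pow_le_pow_left (Nat.le_add_right _ _) A)) (Finset.mem_filter.1 ht).2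
        refine ⟨z, ?_⟩
        push_cast at hz
        exact hz)
    refine hcount.trans ?_
    have h3 : 4 / (K : ℝ) ≤ ε / 2 := by
      rw [div_le_iff₀ hK0]
      rw [div_le_iff₀ hε] at hK
      linarith
    have h4 : (0 : ℝ) ≤ L := Nat.cast_nonneg L
    have h5 := mul_le_mul_of_nonneg_right h3 h4
    linarith
  have dyad : ∀ (A : ℕ) (ε : ℝ), 0 < ε → ∃ N : ℕ, ∀ R : ℕ, N ≤ R → ∀ m : ℕ, 1 ≤ m → m ≤ R ^ A →
      ({r : ℕ | R ≤ r ∧ r < 2 * R ∧ ¬ AllDegrees r m}.ncard : ℝ) ≤ ε * R := by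
    intro A ε hε
    obtain ⟨θ, hθ0, hθ1, h⟩ := main A
    obtain ⟨N, hN⟩ := h ε hε
    refine ⟨max N 1, fun R hR m hm1 hm => ?_⟩
    have hR1 : 1 ≤ R := (le_max_right _ _).trans hR
    have hR1R : (1 : ℝ) ≤ R := by exact_mod_cast hR1
    have h1 := hN R 1 R m le_rfl (by rw [mul_one]; exact (le_max_left _ _).trans hR)
      (by rw [mul_one]) (by
        rw [Nat.cast_one, div_one]
        calc (R : ℝ) ^ θ ≤ (R : ℝ) ^ (1 : ℝ) := Real.rpow_le_rpow_of_exponent_le hR1R hθ1.le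
          _ = R := Real.rpow_one _)
      (by rw [Nat.cast_one, div_one]; exact one_le_pow₀ hR1R) hm1
      (by rw [Nat.cast_one, div_one]; exact_mod_cast hm)
    have h2 : {r : ℕ | R ≤ r ∧ r < 2 * R ∧ ¬ AllDegrees r m} =
        (fun t => R + 1 * t) '' {t : ℕ | t < R ∧ ¬ AllDegrees (R + 1 * t) m} := by
      ext r
      simp only [Set.mem_ofPred_eq, Set.mem_image]
      constructor
      · rintro ⟨h3, h4, h5⟩
        refine ⟨r - R, ⟨by omega, ?_⟩, by omega⟩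
        have : R + 1 * (r - R) = r := by omega
        rw [this]; exact h5
      · rintro ⟨t, ⟨h3, h4⟩, rfl⟩
        exact ⟨by omega, by omega, h4⟩
    rw [h2, Set.ncard_image_of_injective _ (fun x y hxy => by simpa using hxy)]
    exact h1
  have steps : ∀ (j A : ℕ) (ε : ℝ), 0 < ε → ∃ N : ℕ, ∀ x : ℕ, N ≤ x → ∀ m : ℕ, 1 ≤ m → m ≤ x ^ A →
      ({r : ℕ | x ≤ 2 ^ j * r ∧ r < x ∧ ¬ AllDegrees r m}.ncard : ℝ) ≤ ε * x := by
    intro j
    induction j with
    | zero =>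
      intro A ε hε
      refine ⟨0, fun x _ m _ _ => ?_⟩
      have h1 : {r : ℕ | x ≤ 2 ^ 0 * r ∧ r < x ∧ ¬ AllDegrees r m} = ∅ := by
        rw [Set.eq_empty_iff_forall_notMem]
        rintro r ⟨h2, h3, -⟩
        rw [pow_zero, one_mul] at h2
        omega
      rw [h1, Set.ncard_empty, Nat.cast_zero]
      positivity
    | succ j ih =>
      intro A ε hε
      obtain ⟨N1, hN1⟩ := ih (2 * A) (ε / 2) (by positivity)
      obtain ⟨N2, hN2⟩ := dyad (2 * A) (ε / 2) (by positivity)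
      refine ⟨2 * max (max N1 N2) 2, fun x hx m hm1 hm => ?_⟩
      obtain ⟨R, hR⟩ : ∃ R : ℕ, R = (x + 1) / 2 := ⟨_, rfl⟩
      have hR1 : N1 ≤ R := by
        have := (le_max_left N1 N2).trans (le_max_left _ 2)
        omega
      have hR2 : N2 ≤ R := by
        have := (le_max_right N1 N2).trans (le_max_left _ 2)
        omega
      have hR3 : 2 ≤ R := by
        have := le_max_right (max N1 N2) 2
        omega
      have hmR : m ≤ R ^ (2 * A) := by
        refine hm.trans ?_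
        rw [pow_mul]
        refine Nat.pow_le_pow_left ?_ A
        nlinarith [show x ≤ 2 * R by omega]
      have h1 := hN1 R hR1 m hm1 hmR
      have h2 := hN2 R hR2 m hm1 hmR
      have hsub : {r : ℕ | x ≤ 2 ^ (j + 1) * r ∧ r < x ∧ ¬ AllDegrees r m} ⊆
          {r : ℕ | R ≤ 2 ^ j * r ∧ r < R ∧ ¬ AllDegrees r m} ∪
          {r : ℕ | R ≤ r ∧ r < 2 * R ∧ ¬ AllDegrees r m} := by
        rintro r ⟨h3, h4, h5⟩
        rcases lt_or_ge r R with h6 | h6
        · left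
          refine ⟨?_, h6, h5⟩
          rw [pow_succ] at h3
          have : x ≤ 2 * (2 ^ j * r) := by linarith
          omega
        · right
          exact ⟨h6, by omega, h5⟩
      have hfin : ({r : ℕ | R ≤ 2 ^ j * r ∧ r < R ∧ ¬ AllDegrees r m} ∪
          {r : ℕ | R ≤ r ∧ r < 2 * R ∧ ¬ AllDegrees r m}).Finite := by
        refine (Set.finite_lt_nat (2 * R)).subset ?_
        rintro r (⟨-, h3, -⟩ | ⟨-, h3, -⟩)
        · show r < 2 * R
          omega
        · exact h3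
      have h3 := (Set.ncard_le_ncard hsub hfin).trans (Set.ncard_union_le _ _)
      have h4 : ({r : ℕ | x ≤ 2 ^ (j + 1) * r ∧ r < x ∧ ¬ AllDegrees r m}.ncard : ℝ) ≤
          ({r : ℕ | R ≤ 2 ^ j * r ∧ r < R ∧ ¬ AllDegrees r m}.ncard : ℝ) +
          ({r : ℕ | R ≤ r ∧ r < 2 * R ∧ ¬ AllDegrees r m}.ncard : ℝ) := by exact_mod_cast h3
      have h5 : (R : ℝ) ≤ x := by
        have : R ≤ x := by omega
        exact_mod_cast this
      have h6 := mul_le_mul_of_nonneg_left h5 hε.le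
      linarith
  have dens : ∀ (A : ℕ) (ε : ℝ), 0 < ε → ∃ N : ℕ, ∀ x : ℕ, N ≤ x → ∀ m : ℕ, 1 ≤ m → m ≤ x ^ A →
      ({r : ℕ | r < x ∧ ¬ AllDegrees r m}.ncard : ℝ) ≤ ε * x := by
    intro A ε hε
    obtain ⟨j, hj⟩ := pow_unbounded_of_one_lt (4 / ε) (one_lt_two)
    obtain ⟨N1, hN1⟩ := steps j A (ε / 2) (by positivity)
    obtain ⟨N2, hN2⟩ := exists_nat_ge (4 / ε)
    refine ⟨max N1 N2, fun x hx m hm1 hm => ?_⟩
    have h1 := hN1 x ((le_max_left _ _).trans hx) m hm1 hm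
    have hx2 : 4 / ε ≤ x := hN2.trans (by exact_mod_cast (le_max_right _ _).trans hx)
    have hsub : {r : ℕ | r < x ∧ ¬ AllDegrees r m} ⊆
        {r : ℕ | r < ⌈ε / 4 * x⌉₊} ∪
          {r : ℕ | x ≤ 2 ^ j * r ∧ r < x ∧ ¬ AllDegrees r m} := by
      rintro r ⟨h3, h4⟩
      rcases lt_or_ge r ⌈ε / 4 * x⌉₊ with h6 | h6
      · exact Or.inl h6
      · right
        refine ⟨?_, h3, h4⟩
        have h7 : ε / 4 * x ≤ r := Nat.ceil_le.1 h6
        have h8 : (x : ℝ) ≤ 2 ^ j * r := by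
          have h9 : (4 / ε) * (ε / 4 * x) ≤ 2 ^ j * r :=
            mul_le_mul hj.le h7 (by positivity) (by positivity)
          have h10 : (4 / ε) * (ε / 4 * x) = x := by field_simp
          linarith
        exact_mod_cast h8
    have hfin : ({r : ℕ | r < ⌈ε / 4 * x⌉₊} ∪
          {r : ℕ | x ≤ 2 ^ j * r ∧ r < x ∧ ¬ AllDegrees r m}).Finite := by
      refine (Set.finite_lt_nat _).union ((Set.finite_lt_nat x).subset ?_)
      rintro r ⟨-, h3, -⟩
      exact h3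
    have h3 := (Set.ncard_le_ncard hsub hfin).trans (Set.ncard_union_le _ _)
    have h4 : ({r : ℕ | r < ⌈ε / 4 * x⌉₊}.ncard) = ⌈ε / 4 * (x : ℝ)⌉₊ := by
      rw [show {r : ℕ | r < ⌈ε / 4 * (x : ℝ)⌉₊} = ↑(Finset.range ⌈ε / 4 * (x : ℝ)⌉₊) by
        ext r; simp, Set.ncard_coe_finset, Finset.card_range]
    rw [h4] at h3
    have h5 : ({r : ℕ | r < x ∧ ¬ AllDegrees r m}.ncard : ℝ) ≤
        (⌈ε / 4 * (x : ℝ)⌉₊ : ℝ) +
        ({r : ℕ | x ≤ 2 ^ j * r ∧ r < x ∧ ¬ AllDegrees r m}.ncard : ℝ) := by exact_mod_cast h3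
    have h6 : (⌈ε / 4 * (x : ℝ)⌉₊ : ℝ) ≤ ε / 4 * x + 1 := (Nat.ceil_lt_add_one (by positivity)).le
    have h7 : 1 ≤ ε / 4 * x := by
      rw [div_le_iff₀ hε] at hx2
      linarith
    linarith
  refine ⟨main, dens, fun ε hε => ?_, poly_part⟩
  obtain ⟨N, hN⟩ := dens 1 (ε / 2) (by positivity)
  refine ⟨⌈ε / 2 * (100 + N)⌉₊, fun m hm => ?_⟩
  have hfin : {r : ℕ | 10 ≤ r ∧ ¬ AllDegrees r m}.Finite := by
    refine (Set.finite_lt_nat (2 * m + 100)).subset ?_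
    rintro r ⟨-, h2⟩
    by_contra h3
    exact h2 (large_ok hm (not_lt.1 h3))
  refine ⟨hfin, ?_⟩
  have h1 := hN (2 * m + 100 + N) (by omega) m hm (by rw [pow_one]; omega)
  have hsub : {r : ℕ | 10 ≤ r ∧ ¬ AllDegrees r m} ⊆
      {r : ℕ | r < 2 * m + 100 + N ∧ ¬ AllDegrees r m} := by
    rintro r ⟨-, h2⟩
    refine ⟨?_, h2⟩
    by_contra h3
    exact h2 (large_ok hm (by omega))
  have hfin2 : {r : ℕ | r < 2 * m + 100 + N ∧ ¬ AllDegrees r m}.Finite :=
    (Set.finite_lt_nat (2 * m + 100 + N)).subset fun r hr => hr.1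
  have h2 : ({r : ℕ | 10 ≤ r ∧ ¬ AllDegrees r m}.ncard : ℝ) ≤
      ({r : ℕ | r < 2 * m + 100 + N ∧ ¬ AllDegrees r m}.ncard : ℝ) := by
    exact_mod_cast Set.ncard_le_ncard hsub hfin2
  have h3 : ε / 2 * (100 + (N : ℝ)) ≤ (⌈ε / 2 * (100 + (N : ℝ))⌉₊ : ℝ) := Nat.le_ceil _
  push_cast at h1
  linarith

end Pool.Agent.Results.MP_e6aa12_ag.FixedMultiplicity
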