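import Pool.Agent.TH183.QS.Fin
import Pool.Agent.TH518.CW.Fin
import Pool.Agent.L0h10.FP.Count
import Pool.Agent.L0h10.FP.Iso

set_option autoImplicit false

/-!
# General collisions of `r ≥ 10` fat points: short progressions of multiplicities, uniformly in `r`

The pair `(r, m)` is called good if for every field of characteristic zero and for all `(c, a)` outside a
hypersurface the space of the forms of degree `d` on the scheme with ideal
`(y - (a₀ + a₁ x + ... + a_(r-1) x ^ (r-1)), (x - c) ^ r) ^ m` has the expected dimension in EVERY degree `d`.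

(1) For every `r ≥ 10` and every progression `x, x + g, …, x + g (H - 1)` of multiplicities, wherever it
begins, with `H ≥ 30 g √r / δ ²` terms, at most `(bad r + δ) H` of its members are not good.

(2) For `r = 10, …, 15` the same holds with `√r - 3` in place of `bad r` for good over EVERY field, of any
characteristic.

(3) `bad r ≤ 97 / 100`; so among the first `48000 g √r` terms of every progression with difference `g` there
is a good one.

(4) For every `ε` and all large `r` at most `ε H` members of every progression with difference `g` and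
`H ≥ 120 g √r / ε ²` terms are not good.

(5) For every `K` and 100 percent of the `r` any two different multiplicities which are not good
differ by more than `K`.
-/

namespace Pool.Agent.Results.MP_e6aa12_ag.ShortProgressions

open Polynomial

universe u

/-- The forms of degree `d` in three variables whose dehomogenisation lies in the ideal
`(y - ∑ a_j x ^ j, (x - c) ^ r) ^ m` of `k[x][y]`. -/
noncomputable def forms {k : Type u} [Field k] {r : ℕ} (m : ℕ) (c : k) (a : Fin r → k) (d : ℕ) :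
    Submodule k (MvPolynomial (Fin 3) k) :=
  MvPolynomial.homogeneousSubmodule (Fin 3) k d ⊓
    (Submodule.restrictScalars k
      ((Ideal.span {X - C (∑ j : Fin r, C (a j) * X ^ (j : ℕ)), C ((X - C c) ^ r)} :
        Ideal k[X][X]) ^ m)).comap
      (MvPolynomial.aeval ![C X, X, 1] :
        MvPolynomial (Fin 3) k →ₐ[k] k[X][X]).toLinearMap

/-- Over every field of characteristic zero, for all `(c, a)` outside a hypersurface, the space of
forms has the expected dimension in all degrees `d`. -/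
def Good (r m : ℕ) : Prop :=
  ∀ (k : Type u) [Field k] [CharZero k],
    ∃ F : MvPolynomial (Fin (r + 1)) k, F ≠ 0 ∧
      ∀ (c : k) (a : Fin r → k), MvPolynomial.eval (Fin.cons c a : Fin (r + 1) → k) F ≠ 0 →
        ∀ d : ℕ, Module.finrank k (forms m c a d) = Nat.choose (d + 2) 2 - r * Nat.choose (m + 1) 2

/-- The same over every field, of any characteristic. -/
def GoodAll (r m : ℕ) : Prop :=
  ∀ (k : Type u) [Field k],
    ∃ F : MvPolynomial (Fin (r + 1)) k, F ≠ 0 ∧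
      ∀ (c : k) (a : Fin r → k), MvPolynomial.eval (Fin.cons c a : Fin (r + 1) → k) F ≠ 0 →
        ∀ d : ℕ, Module.finrank k (forms m c a d) = Nat.choose (d + 2) 2 - r * Nat.choose (m + 1) 2

/-- The lengths of the two halves of the window. -/
noncomputable def lo (r : ℕ) : ℝ := min (Real.sqrt r - 3) (2 / 3 + 9 / (4 * Real.sqrt r))
noncomputable def hi (r : ℕ) : ℝ := min (Real.sqrt r - 3) (2 / 3 + 1 / (4 * Real.sqrt r))

open Classical in
/-- Zero for squares. -/
noncomputable def bad (r : ℕ) : ℝ := if IsSquare r then 0 else (lo r + hi r) / 2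

theorem good_square {r : ℕ} (hr : 10 ≤ r) (hsq : IsSquare r) (m : ℕ) : Good.{u} r m := by
  intro k _ _
  obtain ⟨F, hF, hF'⟩ := Pool.Agent.TH183.QS.coll_start (m := m) hr (Or.inr hsq) k
  exact ⟨F, hF, fun c a hc d => hF' c a hc d⟩

theorem sqrt_gt {r : ℕ} (hr : 10 ≤ r) : 3 < Real.sqrt r := by
  have hrR : (10 : ℝ) ≤ r := by exact_mod_cast hr
  rw [Real.lt_sqrt (by norm_num)]
  linarith

theorem lo_nonneg {r : ℕ} (hr : 10 ≤ r) : 0 ≤ lo r := by
  have := sqrt_gt hr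
  exact le_min (by linarith) (by positivity)

theorem hi_nonneg {r : ℕ} (hr : 10 ≤ r) : 0 ≤ hi r := by
  have := sqrt_gt hr
  exact le_min (by linarith) (by positivity)

theorem window {r m : ℕ} (hr : 10 ≤ r) (hbad : ¬ Good.{u} r m) : ∃ D : ℤ,
    Real.sqrt r * m + (Real.sqrt r - 3) / 2 - lo r / 2 ≤ D ∧
    (D : ℝ) ≤ Real.sqrt r * m + (Real.sqrt r - 3) / 2 + hi r / 2 := by
  by_contra hcon
  push Not at hcon
  apply hbad
  intro k _ _
  obtain ⟨F, hF, hF'⟩ := Pool.Agent.TH183.QS.coll_every hr m k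
  refine ⟨F, hF, fun c a hc d => hF' c a hc d ?_⟩
  show (d : ℝ) < Real.sqrt r * m ∨ Real.sqrt r * (m + 1) < d + 3 ∨
    2 * (d : ℝ) + 3 + (2 / 3 + 9 / (4 * Real.sqrt r)) < Real.sqrt r * (2 * m + 1) ∨
    Real.sqrt r * (2 * m + 1) + (2 / 3 + 1 / (4 * Real.sqrt r)) < 2 * d + 3
  by_contra hd
  push Not at hd
  obtain ⟨d1, d2, d3, d4⟩ := hd
  have h1 : Real.sqrt r * m + (Real.sqrt r - 3) / 2 - lo r / 2 ≤ ((d : ℤ) : ℝ) := by
    rw [Int.cast_natCast, lo]
    rcases min_choice (Real.sqrt r - 3) (2 / 3 + 9 / (4 * Real.sqrt r)) with h | h <;> rw [h] <;>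
      linarith
  have h2 := hcon _ h1
  rw [Int.cast_natCast, hi] at h2
  rcases min_choice (Real.sqrt r - 3) (2 / 3 + 1 / (4 * Real.sqrt r)) with h | h <;>
    rw [h] at h2 <;> linarith

theorem window_all {r m : ℕ} (hr : 10 ≤ r) (hbad : ¬ GoodAll.{u} r m) : ∃ D : ℤ,
    Real.sqrt r * m < D ∧ (D : ℝ) < Real.sqrt r * m + (Real.sqrt r - 3) := by
  by_contra hcon
  push Not at hcon
  apply hbad
  intro k _
  obtain ⟨F, hF, hF'⟩ := Pool.Agent.TH518.CW.coll_all (m := m) hr k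
  refine ⟨F, hF, fun c a hc d => hF' c a hc d ?_⟩
  by_cases h3 : (d : ℝ) ≤ Real.sqrt r * m
  · exact Or.inl h3
  · right
    have h4 := hcon d (by push_cast; exact not_le.1 h3)
    push_cast at h4
    linarith

theorem not_square {r g : ℕ} (hr : ¬ IsSquare r) (hg : 1 ≤ g) : ¬ IsSquare (g ^ 2 * r) := by
  rw [← irrational_sqrt_natCast_iff, Nat.cast_mul, Nat.cast_pow, Real.sqrt_mul (by positivity),
    Real.sqrt_sq (Nat.cast_nonneg g)]
  exact (irrational_sqrt_natCast_iff.2 hr).natCast_mul (by omega)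

theorem sqrt_prod (r g : ℕ) : Real.sqrt ((g ^ 2 * r : ℕ) : ℝ) = g * Real.sqrt r := by
  rw [Nat.cast_mul, Nat.cast_pow, Real.sqrt_mul (by positivity), Real.sqrt_sq (Nat.cast_nonneg g)]

/-- The general count. -/
theorem count {P : ℕ → Prop} {r g x H : ℕ} (hsq : ¬ IsSquare r) (hg : 1 ≤ g) {δ a b : ℝ} (hab : a ≤ b) (hδ0 : 0 < δ)
    (hδ1 : δ ≤ 1) (hH : 30 * g * Real.sqrt r ≤ δ ^ 2 * H)
    (hw : ∀ m : ℕ, P m → ∃ D : ℤ, Real.sqrt r * m + (Real.sqrt r - 3) / 2 + a ≤ D ∧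
      (D : ℝ) ≤ Real.sqrt r * m + (Real.sqrt r - 3) / 2 + b) :
    (Set.ncard {t : ℕ | t < H ∧ P (x + g * t)} : ℝ) ≤ (b - a + δ) * H := by
  classical
  have hset : {t : ℕ | t < H ∧ P (x + g * t)} =
      ↑((Finset.range H).filter fun t => P (x + g * t)) := by
    ext t
    simp only [Set.mem_ofPred_eq, Finset.coe_filter, Finset.mem_range]
  rw [hset, Set.ncard_coe_finset]
  refine Pool.Agent.L0h10.FP.count_arc (r := g ^ 2 * r) (not_square hsq hg)
    (β := Real.sqrt r * x + (Real.sqrt r - 3) / 2) hab hδ0 hδ1 ?_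
    (fun t ht => Finset.mem_range.1 (Finset.mem_filter.1 ht).1) ?_
  · rw [sqrt_prod]
    linarith
  · intro t ht
    obtain ⟨D, h1, h2⟩ := hw _ (Finset.mem_filter.1 ht).2
    refine ⟨D, ?_, ?_⟩
    · rw [sqrt_prod]
      push_cast at h1
      linarith
    · rw [sqrt_prod]
      push_cast at h2
      linarith

theorem part_one {r : ℕ} (hr : 10 ≤ r) {g : ℕ} (hg : 1 ≤ g) (x : ℕ) {H : ℕ} {δ : ℝ} (hδ0 : 0 < δ)
    (hδ1 : δ ≤ 1) (hH : 30 * g * Real.sqrt r ≤ δ ^ 2 * H) :
    (Set.ncard {t : ℕ | t < H ∧ ¬ Good.{u} r (x + g * t)} : ℝ) ≤ (bad r + δ) * H := by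
  by_cases hsq : IsSquare r
  · have hset : {t : ℕ | t < H ∧ ¬ Good.{u} r (x + g * t)} = ∅ := by
      rw [Set.eq_empty_iff_forall_notMem]
      rintro t ⟨-, ht⟩
      exact ht (good_square hr hsq _)
    rw [hset, Set.ncard_empty, bad, if_pos hsq, Nat.cast_zero]
    positivity
  · have h1 := lo_nonneg hr
    have h2 := hi_nonneg hr
    have h := count (P := fun m => ¬ Good.{u} r m) (x := x) hsq hg (a := -(lo r / 2)) (b := hi r / 2) (by linarith) hδ0 hδ1 hH
      (fun m hm => by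
        obtain ⟨D, k1, k2⟩ := window hr hm
        exact ⟨D, by linarith, k2⟩)
    refine h.trans (le_of_eq ?_)
    rw [bad, if_neg hsq]
    ring

theorem part_all {r : ℕ} (hr : 10 ≤ r) (hr' : r ≤ 15) {g : ℕ} (hg : 1 ≤ g) (x : ℕ) {H : ℕ} {δ : ℝ}
    (hδ0 : 0 < δ) (hδ1 : δ ≤ 1) (hH : 30 * g * Real.sqrt r ≤ δ ^ 2 * H) :
    (Set.ncard {t : ℕ | t < H ∧ ¬ GoodAll.{u} r (x + g * t)} : ℝ) ≤ (Real.sqrt r - 3 + δ) * H := by
  have hsq : ¬ IsSquare r := by
    rintro ⟨q, hq⟩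
    have hq1 : q ≤ 3 := by
      by_contra hcon
      have : 4 * 4 ≤ q * q := Nat.mul_le_mul (by omega) (by omega)
      omega
    have : q * q ≤ 3 * 3 := Nat.mul_le_mul hq1 hq1
    omega
  have hs := sqrt_gt hr
  have h := count (P := fun m => ¬ GoodAll.{u} r m) (x := x) hsq hg (a := -((Real.sqrt r - 3) / 2))
    (b := (Real.sqrt r - 3) / 2) (by linarith) hδ0 hδ1 hH
    (fun m hm => by
      obtain ⟨D, k1, k2⟩ := window_all hr hm
      exact ⟨D, by linarith, by linarith⟩)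
  refine h.trans (le_of_eq ?_)
  ring

theorem bad_le {r : ℕ} (hr : 10 ≤ r) : bad r ≤ 97 / 100 := by
  rw [bad]
  split_ifs with hsq
  · norm_num
  have hne : r ≠ 16 := by
    rintro rfl
    exact hsq ⟨4, rfl⟩
  rcases Nat.lt_or_ge r 16 with h | h
  · have h1 : Real.sqrt r ≤ 3.88 := by
      rw [Real.sqrt_le_left (by norm_num)]
      have : (r : ℝ) ≤ 15 := by exact_mod_cast (by omega : r ≤ 15)
      norm_num
      linarith
    have h2 : lo r ≤ Real.sqrt r - 3 := min_le_left _ _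
    have h3 : hi r ≤ Real.sqrt r - 3 := min_le_left _ _
    linarith
  · have h4 : (4.12 : ℝ) ≤ Real.sqrt r := by
      apply Real.le_sqrt_of_sq_le
      have : (17 : ℝ) ≤ r := by exact_mod_cast (by omega : 17 ≤ r)
      norm_num
      linarith
    have h3 : hi r ≤ 2 / 3 + 1 / (4 * Real.sqrt r) := min_le_right _ _
    have h5 : 1 / (4 * Real.sqrt r) ≤ 25 / 412 := by
      refine le_trans (one_div_le_one_div_of_le (by norm_num : (0 : ℝ) < 4 * 4.12) (by linarith)) ?_
      norm_num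
    rcases Nat.lt_or_ge r 18 with h6 | h6
    · have h7 : Real.sqrt r ≤ 4.13 := by
        rw [Real.sqrt_le_left (by norm_num)]
        have : (r : ℝ) ≤ 17 := by exact_mod_cast (by omega : r ≤ 17)
        norm_num
        linarith
      have h8 : lo r ≤ Real.sqrt r - 3 := min_le_left _ _
      linarith
    · have h7 : (4.24 : ℝ) ≤ Real.sqrt r := by
        apply Real.le_sqrt_of_sq_le
        have : (18 : ℝ) ≤ r := by exact_mod_cast h6
        norm_num
        linarith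
      have h8 : lo r ≤ 2 / 3 + 9 / (4 * Real.sqrt r) := min_le_right _ _
      have h9 : 9 / (4 * Real.sqrt r) ≤ 225 / 424 := by
        refine le_trans (div_le_div_of_nonneg_left (by norm_num : (0 : ℝ) ≤ 9)
          (by norm_num : (0 : ℝ) < 4 * 4.24) (by linarith)) ?_
        norm_num
      linarith

theorem part_two {r : ℕ} (hr : 10 ≤ r) {g : ℕ} (hg : 1 ≤ g) (x : ℕ) :
    ∃ t : ℕ, (t : ℝ) < 48000 * g * Real.sqrt r ∧ Good.{u} r (x + g * t) := by
  by_contra hcon
  push Not at hcon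
  obtain ⟨H, hHd⟩ : ∃ H : ℕ, H = ⌈48000 * (g : ℝ) * Real.sqrt r⌉₊ := ⟨_, rfl⟩
  have hs := sqrt_gt hr
  have hgR : (1 : ℝ) ≤ g := by exact_mod_cast hg
  have hpos : 0 < 48000 * (g : ℝ) * Real.sqrt r := by positivity
  have hH1 : 48000 * (g : ℝ) * Real.sqrt r ≤ H := by rw [hHd]; exact Nat.le_ceil _
  have h1 := part_one.{u} hr hg x (H := H) (δ := 1 / 40) (by norm_num) (by norm_num) (by
    norm_num
    linarith)
  have hset : {t : ℕ | t < H ∧ ¬ Good.{u} r (x + g * t)} = ↑(Finset.range H) := by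
    ext t
    simp only [Set.mem_ofPred_eq, Finset.coe_range, Set.mem_Iio]
    refine ⟨fun h => h.1, fun h => ⟨h, hcon t ?_⟩⟩
    rw [hHd] at h
    exact Nat.lt_ceil.1 h
  rw [hset, Set.ncard_coe_finset, Finset.card_range] at h1
  have h2 := bad_le hr
  have h3 : (0 : ℝ) < H := lt_of_lt_of_le hpos hH1
  nlinarith

theorem large {η : ℝ} (hη : 0 < η) : ∃ N : ℕ, 10 ≤ N ∧ ∀ r : ℕ, N ≤ r → ∀ m : ℕ, ¬ Good.{u} r m →
    ∃ d : ℕ, |2 * (d : ℝ) + 3 - Real.sqrt r - 2 * (Real.sqrt r * m)| < η := by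
  obtain ⟨N, hN10, h⟩ := Pool.Agent.TH183.QS.coll_large.{u} hη
  refine ⟨N, hN10, fun r hr m hbad => ?_⟩
  by_contra hcon
  push Not at hcon
  apply hbad
  intro k _ _
  obtain ⟨F, hF, hF'⟩ := h r hr m k
  exact ⟨F, hF, fun c a hc d => hF' c a hc d (hcon d)⟩

theorem result :
    -- (1) every progression with sufficiently many terms, every number of points
    (∀ r : ℕ, 10 ≤ r → ∀ g x H : ℕ, 1 ≤ g → ∀ δ : ℝ, 0 < δ → δ ≤ 1 →
      30 * g * Real.sqrt r ≤ δ ^ 2 * H →
      (Set.ncard {t : ℕ | t < H ∧ ¬ Good.{u} r (x + g * t)} : ℝ) ≤ (bad r + δ) * H) ∧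
    -- (2) ten to fifteen points, every characteristic
    (∀ r : ℕ, 10 ≤ r → r ≤ 15 → ∀ g x H : ℕ, 1 ≤ g → ∀ δ : ℝ, 0 < δ → δ ≤ 1 →
      30 * g * Real.sqrt r ≤ δ ^ 2 * H →
      (Set.ncard {t : ℕ | t < H ∧ ¬ GoodAll.{u} r (x + g * t)} : ℝ) ≤ (Real.sqrt r - 3 + δ) * H) ∧
    -- (3) good multiplicities in every progression
    (∀ r : ℕ, 10 ≤ r → bad r ≤ 97 / 100) ∧
    (∀ r : ℕ, 10 ≤ r → ∀ g x : ℕ, 1 ≤ g →
      ∃ t : ℕ, (t : ℝ) < 48000 * g * Real.sqrt r ∧ Good.{u} r (x + g * t)) ∧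
    -- (4) many points
    (∀ ε : ℝ, 0 < ε → ε ≤ 1 → ∃ N : ℕ, ∀ r : ℕ, N ≤ r → ∀ g x H : ℕ, 1 ≤ g →
      120 * g * Real.sqrt r ≤ ε ^ 2 * H →
      (Set.ncard {t : ℕ | t < H ∧ ¬ Good.{u} r (x + g * t)} : ℝ) ≤ ε * H) ∧
    -- (5) almost all numbers of points
    (∀ (K : ℕ) (ε : ℝ), 0 < ε → ∃ R₀ : ℕ, ∀ R : ℕ, R₀ ≤ R →
      (Set.ncard {r : ℕ | 10 ≤ r ∧ r < R ∧ ∃ m m' : ℕ, m < m' ∧ m' ≤ m + K ∧
        ¬ Good.{u} r m ∧ ¬ Good.{u} r m'} : ℝ) ≤ ε * R) := by
  classical
  refine ⟨fun r hr g x H hg δ h0 h1 hH => part_one hr hg x h0 h1 hH,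
    fun r hr hr' g x H hg δ h0 h1 hH => part_all hr hr' hg x h0 h1 hH, fun r hr => bad_le hr,
    fun r hr g x hg => part_two hr hg x, fun ε h0 h1 => ?_, fun K ε hε => ?_⟩
  · obtain ⟨N, hN10, hN⟩ := large.{u} (half_pos h0)
    refine ⟨N, fun r hr g x H hg hH => ?_⟩
    by_cases hsq : IsSquare r
    · have hset : {t : ℕ | t < H ∧ ¬ Good.{u} r (x + g * t)} = ∅ := by
        rw [Set.eq_empty_iff_forall_notMem]
        rintro t ⟨-, ht⟩
        exact ht (good_square (hN10.trans hr) hsq _)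
      rw [hset, Set.ncard_empty, Nat.cast_zero]
      positivity
    · have h := count (P := fun m => ¬ Good.{u} r m) (x := x) (H := H) hsq hg (a := -(ε / 4)) (b := ε / 4) (δ := ε / 2)
        (by linarith) (by linarith) (by linarith) (by nlinarith)
        (fun m hm => by
          obtain ⟨d, hd⟩ := hN r hr m hm
          rw [abs_lt] at hd
          refine ⟨d, ?_, ?_⟩
          · rw [Int.cast_natCast]
            linarith
          · rw [Int.cast_natCast]
            linarith)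
      refine h.trans (le_of_eq ?_)
      ring
  · obtain ⟨η, hη0, hη1, h⟩ := Pool.Agent.L0h10.FP.iso_count K hε
    obtain ⟨N, hN10, hN⟩ := large.{u} hη0
    obtain ⟨R₀, hR₀⟩ := h N
    refine ⟨R₀, fun R hR => ?_⟩
    have hset : {r : ℕ | 10 ≤ r ∧ r < R ∧ ∃ m m' : ℕ, m < m' ∧ m' ≤ m + K ∧
        ¬ Good.{u} r m ∧ ¬ Good.{u} r m'} =
        ↑((Finset.range R).filter fun r => 10 ≤ r ∧ ∃ m m' : ℕ, m < m' ∧ m' ≤ m + K ∧
          ¬ Good.{u} r m ∧ ¬ Good.{u} r m') := by
      ext r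
      simp only [Set.mem_ofPred_eq, Finset.coe_filter, Finset.mem_range]
      exact ⟨fun ⟨a, b, c⟩ => ⟨b, a, c⟩, fun ⟨b, a, c⟩ => ⟨a, b, c⟩⟩
    rw [hset, Set.ncard_coe_finset]
    refine hR₀ R hR _ (fun r hr => Finset.mem_range.1 (Finset.mem_filter.1 hr).1) fun r hr => ?_
    obtain ⟨-, hr10, m, m', h1, h2, h3, h4⟩ := Finset.mem_filter.1 hr
    refine ⟨by omega, fun hNr => ⟨m' - m, by omega, by omega, ?_⟩⟩
    obtain ⟨d, hd⟩ := hN r hNr m h3
    obtain ⟨d', hd'⟩ := hN r hNr m' h4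
    refine ⟨(d' : ℤ) - d, ?_⟩
    rw [Nat.cast_sub h1.le]
    push_cast
    rw [abs_lt] at hd hd' ⊢
    constructor <;> linarith

end Pool.Agent.Results.MP_e6aa12_ag.ShortProgressions
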