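import Pool.Agent.TH183.QS.Fin
import Pool.Agent.TH518.CW.Fin
import Pool.Agent.L0h79.SN.Mix
import Pool.Agent.L0h79.SN.Seq

set_option autoImplicit false

/-!
# General collisions of fat points: all degrees, for many numbers `r` of points at once

The scheme has the ideal `(y - (a₀ + a₁ x + ... + a_(r-1) x ^ (r-1)), (x - c) ^ r) ^ m`; a pair `(r, m)` is good
(`Good`, `GoodAll`) if for all `(c, a)` outside of a hypersurface the space of the forms of degree `d` on it has the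
expected dimension in EVERY degree `d`, over every field of characteristic zero (over every field).

(1) Let `T` be a finite set of integers `r ≥ 10` such that the product of two different members which are not squares is
not a square. Then `(r, m)` is good for all `r ∈ T` simultaneously, for a proportion of at least `∏ (1 - bad r) - ε` of
the multiplicities `m`, and moreover for all squares `r ≥ 16` and for all members of any sequence `s` which grows fast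
enough (in terms of `ε` only).

(2) This is true for a positive proportion of the `m` (depending on `T`) for every finite set `T` of integers `r ≥ 10` such
that the product of a member `r` in `[17, 45]`, not a square, with another member is never a square.

(3) The six numbers `r = 10, …, 15` (and `16`) at once, over all fields: a proportion of at least `0.0039`.

(4) For `R ≥ R₀(ε)` and every `M`: for all but `ε M` of the `m < M`, the pair `(r, m)` is good for all but `ε R` of the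
`r < R`.

(5) The product formula of (1) (for `T` and the squares) and (3) for all sequences of multiplicities whose Weyl sums at
irrational algebraic frequencies are small (`Weyl`).

(6), (7), (8) In particular for the values `Q(t)`, `t ∈ (N, 2N]`, of nonconstant polynomials with integral coefficients and
positive leading coefficient, and for the terms of every progression of `L ≥ L₀` terms and difference `q`, where `L₀`
does not depend on the first term.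

Proof. The open degrees form a short window around `√r (m + 1 / 2)` (TH183, TH518 of the starting library), so that
`(r, m)` is good if `√r (m + 1 / 2)` is near to an integer; square roots of different squarefree numbers and `1` are
linearly independent over `ℚ` (H383), and a theorem on joint distribution (Y961.JR) applies; for polynomials Weyl's theorem (H767R2).
-/

namespace Pool.Agent.Results.MP_e6aa12_ag.SimultaneousNumbersOfPoints

open Polynomial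
open Pool.Agent.L0h79.SN

universe u

/-- The forms of degree `d` in three variables whose dehomogenisation lies in the ideal
`(y - ∑ a_j x ^ j, (x - c) ^ r) ^ m` of `k[x][y]`. -/
noncomputable def forms {k : Type u} [Field k] {r : ℕ} (m : ℕ) (c : k) (a : Fin r → k) (d : ℕ) :
    Submodule k (MvPolynomial (Fin 3) k) :=
  MvPolynomial.homogeneousSubmodule (Fin 3) k d ⊓
    (Submodule.restrictScalars k
      ((Ideal.span {X - C (∑ j : Fin r, C (a j) * X ^ (j : ℕ)), C ((X - C c) ^ r)} :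
        Ideal k[X][X]) ^ m)).comap
      (MvPolynomial.aeval ![C X, X, 1] :
        MvPolynomial (Fin 3) k →ₐ[k] k[X][X]).toLinearMap

/-- Over the field `k`, for all `(c, a)` outside a hypersurface, the space of the forms of degree `d`
has the expected dimension in every degree `d`. -/
def ExpectedOver (k : Type u) [Field k] (r m : ℕ) : Prop :=
  ∃ F : MvPolynomial (Fin (r + 1)) k, F ≠ 0 ∧
    ∀ (c : k) (a : Fin r → k), MvPolynomial.eval (Fin.cons c a : Fin (r + 1) → k) F ≠ 0 →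
      ∀ d : ℕ, Module.finrank k (forms m c a d) = Nat.choose (d + 2) 2 - r * Nat.choose (m + 1) 2

/-- every field of characteristic zero -/
def Good (r m : ℕ) : Prop :=
  ∀ (k : Type u) [Field k] [CharZero k], ExpectedOver k r m

/-- every field, of any characteristic -/
def GoodAll (r m : ℕ) : Prop :=
  ∀ (k : Type u) [Field k], ExpectedOver k r m

/-- The lower half of the window of open degrees. -/
noncomputable def lo (r : ℕ) : ℝ := min (Real.sqrt r - 3) (2 / 3 + 9 / (4 * Real.sqrt r))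

/-- The upper half of the window of open degrees. -/
noncomputable def hi (r : ℕ) : ℝ := min (Real.sqrt r - 3) (2 / 3 + 1 / (4 * Real.sqrt r))

open Classical in
/-- The bound for the proportion of the bad multiplicities for `r` points. -/
noncomputable def bad (r : ℕ) : ℝ := if IsSquare r then 0 else (lo r + hi r) / 2

/-- The Weyl sums of the sequence `v` over the finite sets `s N` at irrational algebraic frequencies are of smaller
order. -/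
def Weyl (s : ℕ → Finset ℕ) (v : ℕ → ℕ) : Prop :=
  ∀ θ : ℝ, Irrational θ → IsAlgebraic ℤ θ → ∀ ε : ℝ, 0 < ε → ∃ N₀ : ℕ, ∀ N : ℕ, N₀ ≤ N →
    ‖∑ n ∈ s N, Complex.exp (((2 * Real.pi * (θ * v n) : ℝ) : ℂ) * Complex.I)‖ ≤ ε * (s N).card

theorem good_sq {r : ℕ} (m : ℕ) (hr : 10 ≤ r) (hsq : IsSquare r) : Good.{u} r m := by
  intro k _ _
  obtain ⟨F, hF, hF'⟩ := Pool.Agent.TH183.QS.coll_start (m := m) hr (Or.inr hsq) k
  exact ⟨F, hF, fun c a hc d => hF' c a hc d⟩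

theorem good_small {r m : ℕ} (hr : 10 ≤ r) (hm : (m : ℝ) ≤ r - 6 * Real.sqrt r + 11) :
    Good.{u} r m := by
  intro k _ _
  obtain ⟨F, hF, hF'⟩ := Pool.Agent.TH183.QS.coll_start (m := m) hr (Or.inl hm) k
  exact ⟨F, hF, fun c a hc d => hF' c a hc d⟩

theorem good_large (ε : ℝ) (hε : 0 < ε) : ∃ N : ℕ, 10 ≤ N ∧ ∀ r : ℕ, N ≤ r → ∀ m : ℕ,
    (∀ d : ℕ, ε ≤ |2 * (d : ℝ) + 3 - Real.sqrt r - 2 * (Real.sqrt r * m)|) → Good.{u} r m := by
  obtain ⟨N, hN10, h⟩ := Pool.Agent.TH183.QS.coll_large.{u} hε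
  refine ⟨N, hN10, fun r hr m hd k _ _ => ?_⟩
  obtain ⟨F, hF, hF'⟩ := h r hr m k
  exact ⟨F, hF, fun c a hc d => hF' c a hc d (hd d)⟩

theorem parity {z : ℤ} {d : ℕ} (h1 : 2 * (z : ℝ) - 1 < 2 * d + 3) (h2 : 2 * (d : ℝ) + 3 < 2 * z + 1) :
    False := by
  have h1' : 2 * z - 1 < 2 * (d : ℤ) + 3 := by exact_mod_cast h1
  have h2' : 2 * (d : ℤ) + 3 < 2 * z + 1 := by exact_mod_cast h2
  omega

theorem good_arc {r : ℕ} (hr : 10 ≤ r) (m : ℕ)
    (h : ∃ z : ℤ, (lo r - 1) / 2 < Real.sqrt r * m + Real.sqrt r / 2 - z ∧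
      Real.sqrt r * m + Real.sqrt r / 2 - z < (1 - hi r) / 2) : Good.{u} r m := by
  obtain ⟨z, hz1, hz2⟩ := h
  intro k _ _
  obtain ⟨F, hF, hF'⟩ := Pool.Agent.TH183.QS.coll_every hr m k
  refine ⟨F, hF, fun c a hc d => hF' c a hc d ?_⟩
  by_contra hd
  push Not at hd
  obtain ⟨d1, d2, d3, d4⟩ := hd
  have h1 : Real.sqrt r * (2 * m + 1) - lo r ≤ 2 * d + 3 := by
    unfold lo
    rcases min_choice (Real.sqrt r - 3) (2 / 3 + 9 / (4 * Real.sqrt r)) with h | h <;> rw [h] <;>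
      linarith
  have h2 : 2 * (d : ℝ) + 3 ≤ Real.sqrt r * (2 * m + 1) + hi r := by
    unfold hi
    rcases min_choice (Real.sqrt r - 3) (2 / 3 + 1 / (4 * Real.sqrt r)) with h | h <;> rw [h] <;>
      linarith
  exact parity (z := z) (d := d) (by linarith) (by linarith)

theorem goodAll_arc {r : ℕ} (hr : 10 ≤ r) (m : ℕ)
    (h : ∃ z : ℤ, (Real.sqrt r - 4) / 2 < Real.sqrt r * m + Real.sqrt r / 2 - z ∧
      Real.sqrt r * m + Real.sqrt r / 2 - z < (4 - Real.sqrt r) / 2) : GoodAll.{u} r m := by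
  obtain ⟨z, hz1, hz2⟩ := h
  intro k _
  obtain ⟨F, hF, hF'⟩ := Pool.Agent.TH518.CW.coll_all (m := m) hr k
  refine ⟨F, hF, fun c a hc d => hF' c a hc d ?_⟩
  by_contra hd
  push Not at hd
  obtain ⟨d1, d2⟩ := hd
  exact parity (z := z) (d := d) (by linarith) (by linarith)

theorem goodAll_sixteen (m : ℕ) : GoodAll.{u} 16 m := by
  intro k _
  obtain ⟨F, hF, hF'⟩ := Pool.Agent.TH518.CW.coll_all (r := 16) (m := m) (by norm_num) k
  refine ⟨F, hF, fun c a hc d => hF' c a hc d ?_⟩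
  have h4 : Real.sqrt ((16 : ℕ) : ℝ) = 4 := by
    rw [show ((16 : ℕ) : ℝ) = 4 ^ 2 by norm_num, Real.sqrt_sq (by norm_num)]
  rw [h4]
  rcases le_or_gt d (4 * m) with h | h
  · left
    exact_mod_cast h
  · right
    have h' : 4 * m + 1 ≤ d := h
    have h'' : (4 * (m : ℝ) + 1) ≤ d := by exact_mod_cast h'
    linarith

theorem sqrt_ge {r : ℕ} {x : ℝ} (hx : x ^ 2 ≤ r) : x ≤ Real.sqrt r :=
  Real.le_sqrt_of_sq_le hx

theorem lohi {r : ℕ} (hr : 10 ≤ r) : 0 ≤ lo r ∧ 0 ≤ hi r ∧ lo r + hi r < 2 := by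
  have hrR : (10 : ℝ) ≤ r := by exact_mod_cast hr
  have hs3 : 3 ≤ Real.sqrt r := sqrt_ge (by linarith)
  refine ⟨le_min (by linarith) (by positivity), le_min (by linarith) (by positivity), ?_⟩
  rcases le_or_gt r 15 with h | h
  · have h1 : Real.sqrt r < 4 := by
      rw [Real.sqrt_lt' (by norm_num)]
      have : (r : ℝ) ≤ 15 := by exact_mod_cast h
      linarith
    have h2 := min_le_left (Real.sqrt r - 3) (2 / 3 + 9 / (4 * Real.sqrt r))
    have h3 := min_le_left (Real.sqrt r - 3) (2 / 3 + 1 / (4 * Real.sqrt r))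
    unfold lo hi
    linarith
  · have h1 : 4 ≤ Real.sqrt r := by
      apply sqrt_ge
      have : (16 : ℝ) ≤ r := by exact_mod_cast h
      linarith
    have h2 := min_le_right (Real.sqrt r - 3) (2 / 3 + 9 / (4 * Real.sqrt r))
    have h3 := min_le_right (Real.sqrt r - 3) (2 / 3 + 1 / (4 * Real.sqrt r))
    have h4 : 9 / (4 * Real.sqrt r) ≤ 9 / 16 := by
      apply div_le_div_of_nonneg_left (by norm_num) (by norm_num); linarith
    have h5 : 1 / (4 * Real.sqrt r) ≤ 1 / 16 := by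
      apply div_le_div_of_nonneg_left (by norm_num) (by norm_num); linarith
    unfold lo hi
    linarith

theorem lohi_small {r : ℕ} (hr : 10 ≤ r) (h : r ≤ 15 ∨ 46 ≤ r) :
    lo r ≤ 1 - 2 * 0.0007 ∧ hi r ≤ 1 - 2 * 0.0007 := by
  have hrR : (10 : ℝ) ≤ r := by exact_mod_cast hr
  rcases h with h | h
  · have h1 : Real.sqrt r ≤ 3.9 := by
      rw [Real.sqrt_le_left (by norm_num)]
      have : (r : ℝ) ≤ 15 := by exact_mod_cast h
      norm_num
      linarith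
    have h2 := min_le_left (Real.sqrt r - 3) (2 / 3 + 9 / (4 * Real.sqrt r))
    have h3 := min_le_left (Real.sqrt r - 3) (2 / 3 + 1 / (4 * Real.sqrt r))
    unfold lo hi
    constructor <;> linarith
  · have h1 : 6.78 ≤ Real.sqrt r := by
      apply sqrt_ge
      have : (46 : ℝ) ≤ r := by exact_mod_cast h
      norm_num
      linarith
    have h2 := min_le_right (Real.sqrt r - 3) (2 / 3 + 9 / (4 * Real.sqrt r))
    have h3 := min_le_right (Real.sqrt r - 3) (2 / 3 + 1 / (4 * Real.sqrt r))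
    have h4 : 9 / (4 * Real.sqrt r) ≤ 9 / 27.12 := by
      apply div_le_div_of_nonneg_left (by norm_num) (by norm_num); linarith
    have h5 : 1 / (4 * Real.sqrt r) ≤ 1 / 27.12 := by
      apply div_le_div_of_nonneg_left (by norm_num) (by norm_num); linarith
    have h6 : (9 : ℝ) / 27.12 ≤ 0.3319 := by norm_num
    have h7 : (1 : ℝ) / 27.12 ≤ 0.3319 := by norm_num
    unfold lo hi
    constructor <;> linarith

/-- One multiplicity for all the numbers of points in `T`, in the sequence `s`, and for all squares. -/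
def Everywhere (T : Finset ℕ) (s : ℕ → ℕ) (m : ℕ) : Prop :=
  (∀ r ∈ T, Good.{u} r m) ∧ (∀ i, Good.{u} (s i) m) ∧ ∀ r : ℕ, 10 ≤ r → IsSquare r → Good.{u} r m

open Classical in
theorem combine {T : Finset ℕ} (hT : ∀ r ∈ T, 10 ≤ r) {s : ℕ → ℕ} {M : ℕ} {c ε : ℝ}
    (h1 : c * M ≤ (Set.ncard {m : ℕ | m < M ∧ ∀ r ∈ T.filter (fun r => ¬ IsSquare r),
      Good.{u} r m} : ℝ))
    (h2 : (Set.ncard {m : ℕ | m < M ∧ ∃ i, ¬ Good.{u} (s i) m} : ℝ) ≤ ε * M) :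
    (c - ε) * M ≤ (Set.ncard {m : ℕ | m < M ∧ Everywhere.{u} T s m} : ℝ) := by
  have hfin1 : {m : ℕ | m < M ∧ Everywhere.{u} T s m}.Finite :=
    (Set.finite_Iio M).subset fun m hm => hm.1
  have hfin2 : {m : ℕ | m < M ∧ ∃ i, ¬ Good.{u} (s i) m}.Finite :=
    (Set.finite_Iio M).subset fun m hm => hm.1
  have hsub : {m : ℕ | m < M ∧ ∀ r ∈ T.filter (fun r => ¬ IsSquare r), Good.{u} r m} ⊆
      {m : ℕ | m < M ∧ Everywhere.{u} T s m} ∪ {m : ℕ | m < M ∧ ∃ i, ¬ Good.{u} (s i) m} := by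
    rintro m ⟨hm, hm'⟩
    by_cases h : ∃ i, ¬ Good.{u} (s i) m
    · exact Or.inr ⟨hm, h⟩
    · push Not at h
      refine Or.inl ⟨hm, fun r hr => ?_, h, fun r hr hsq => good_sq m hr hsq⟩
      by_cases hsq : IsSquare r
      · exact good_sq m (hT r hr) hsq
      · exact hm' r (Finset.mem_filter.2 ⟨hr, hsq⟩)
  have h3 := (Set.ncard_le_ncard hsub (hfin1.union hfin2)).trans (Set.ncard_union_le _ _)
  have h4 : (Set.ncard {m : ℕ | m < M ∧ ∀ r ∈ T.filter (fun r => ¬ IsSquare r),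
      Good.{u} r m} : ℝ) ≤ Set.ncard {m : ℕ | m < M ∧ Everywhere.{u} T s m} +
        Set.ncard {m : ℕ | m < M ∧ ∃ i, ¬ Good.{u} (s i) m} := by exact_mod_cast h3
  linarith

theorem uniform (ε : ℝ) (hε : 0 < ε) : ∃ N : ℕ, 10 ≤ N ∧ ∀ r : ℕ, N ≤ r → ∀ M : ℕ,
    (Set.ncard {m : ℕ | m < M ∧ ¬ Good.{u} r m} : ℝ) ≤ ε * M :=
  uniform_gen (fun _ m hr hsq => good_sq m hr hsq) (fun _ _ hr hm => good_small hr hm)
    good_large hε

theorem prod_pos_six : 0.0039 < ∏ r ∈ Finset.Icc 10 15, (4 - Real.sqrt (r : ℕ)) := by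
  have hb : ∀ (r : ℕ) (x : ℝ), 0 < x → (r : ℝ) < x ^ 2 → 4 - x < 4 - Real.sqrt r := by
    intro r x hx hr
    have := (Real.sqrt_lt' hx).2 hr
    linarith
  have h10 := hb 10 3.1623 (by norm_num) (by norm_num)
  have h11 := hb 11 3.3167 (by norm_num) (by norm_num)
  have h12 := hb 12 3.4642 (by norm_num) (by norm_num)
  have h13 := hb 13 3.6056 (by norm_num) (by norm_num)
  have h14 := hb 14 3.7417 (by norm_num) (by norm_num)
  have h15 := hb 15 3.8731 (by norm_num) (by norm_num)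
  have e : ∏ r ∈ Finset.Icc 10 15, (4 - Real.sqrt (r : ℕ)) =
      (4 - Real.sqrt (10 : ℕ)) * (4 - Real.sqrt (11 : ℕ)) * (4 - Real.sqrt (12 : ℕ)) *
        (4 - Real.sqrt (13 : ℕ)) * (4 - Real.sqrt (14 : ℕ)) * (4 - Real.sqrt (15 : ℕ)) := by
    rw [show Finset.Icc 10 15 = ({10, 11, 12, 13, 14, 15} : Finset ℕ) by decide]
    rw [Finset.prod_insert (by decide), Finset.prod_insert (by decide),
      Finset.prod_insert (by decide), Finset.prod_insert (by decide),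
      Finset.prod_insert (by decide), Finset.prod_singleton]
    ring
  rw [e]
  have k1 : (4 - 3.1623 : ℝ) * (4 - 3.3167) <
      (4 - Real.sqrt (10 : ℕ)) * (4 - Real.sqrt (11 : ℕ)) :=
    mul_lt_mul'' h10 h11 (by norm_num) (by norm_num)
  have k2 := mul_lt_mul'' k1 h12 (by norm_num) (by norm_num)
  have k3 := mul_lt_mul'' k2 h13 (by norm_num) (by norm_num)
  have k4 := mul_lt_mul'' k3 h14 (by norm_num) (by norm_num)
  have k5 := mul_lt_mul'' k4 h15 (by norm_num) (by norm_num)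
  refine lt_trans ?_ k5
  norm_num

/-- general sequences -/
theorem along_seq {G : ℕ → ℕ → Prop} {T : Finset ℕ} (hns : ∀ r ∈ T, ¬ IsSquare r)
    (hTT : ∀ r ∈ T, ∀ r' ∈ T, r ≠ r' → ¬ IsSquare (r * r')) {a b : ℕ → ℝ}
    (hab : ∀ r ∈ T, a r < b r ∧ b r ≤ a r + 1)
    (hG : ∀ r ∈ T, ∀ m : ℕ, (∃ z : ℤ, a r < √(r : ℝ) * m + √(r : ℝ) / 2 - z ∧
      √(r : ℝ) * m + √(r : ℝ) / 2 - z < b r) → G r m) {ε : ℝ} (hε : 0 < ε)
    {s : ℕ → Finset ℕ} {v : ℕ → ℕ} (hv : Weyl s v) :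
    ∃ N₀ : ℕ, ∀ N : ℕ, N₀ ≤ N → (∏ r ∈ T, (b r - a r) - ε) * (s N).card ≤
      (Set.ncard {n : ℕ | n ∈ s N ∧ ∀ r ∈ T, G r (v n)} : ℝ) := by
  classical
  have h1 := product_seq (s := s) (v := fun n => (v n : ℤ)) (by
    intro θ hθ hθ' δ hδ
    obtain ⟨N₀, hN₀⟩ := hv θ hθ hθ' δ hδ
    refine Filter.eventually_atTop.2 ⟨N₀, fun N hN => ?_⟩
    have h2 := hN₀ N hN
    simp only [Int.cast_natCast]
    exact h2) hns hTT hab hε
  obtain ⟨N₀, hN₀⟩ := Filter.eventually_atTop.1 h1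
  refine ⟨N₀, fun N hN => (hN₀ N hN).trans (Nat.cast_le.2 (Set.ncard_le_ncard ?_
    ((Finset.finite_toSet (s N)).subset fun m hm => hm.1)))⟩
  rintro n ⟨hn, hn'⟩
  refine ⟨hn, fun r hr => hG r hr _ ?_⟩
  have h5 := hn' r hr
  simpa using h5

/-- the values at the integers of `(N, 2 N]` -/
theorem along_poly {G : ℕ → ℕ → Prop} {T : Finset ℕ} (hns : ∀ r ∈ T, ¬ IsSquare r)
    (hTT : ∀ r ∈ T, ∀ r' ∈ T, r ≠ r' → ¬ IsSquare (r * r')) {a b : ℕ → ℝ}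
    (hab : ∀ r ∈ T, a r < b r ∧ b r ≤ a r + 1)
    (hG : ∀ r ∈ T, ∀ m : ℕ, (∃ z : ℤ, a r < √(r : ℝ) * m + √(r : ℝ) / 2 - z ∧
      √(r : ℝ) * m + √(r : ℝ) / 2 - z < b r) → G r m) {ε : ℝ} (hε : 0 < ε)
    {Q : ℤ[X]} (hQ : 1 ≤ Q.natDegree) (hl : 0 < Q.leadingCoeff) :
    ∃ N₀ : ℕ, ∀ N : ℕ, N₀ ≤ N → (∏ r ∈ T, (b r - a r) - ε) * N ≤
      (Set.ncard {t : ℕ | N < t ∧ t ≤ 2 * N ∧ ∃ m : ℕ, (m : ℤ) = Q.eval (t : ℤ) ∧
        ∀ r ∈ T, G r m} : ℝ) := by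
  classical
  have h1 := product_seq (s := fun N => Finset.Ioc N (2 * N)) (v := fun n => Q.eval (n : ℤ))
    (fun θ hθ _ => smallTo_poly hQ hθ) hns hTT hab hε
  obtain ⟨N₀, hN₀⟩ := Filter.eventually_atTop.1 (h1.and (poly_large hQ hl))
  refine ⟨N₀, fun N hN => ?_⟩
  obtain ⟨h2, h3⟩ := hN₀ N hN
  rw [Nat.card_Ioc, show 2 * N - N = N by omega] at h2
  refine h2.trans ?_
  have hfin : {t : ℕ | N < t ∧ t ≤ 2 * N ∧ ∃ m : ℕ, (m : ℤ) = Q.eval (t : ℤ) ∧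
      ∀ r ∈ T, G r m}.Finite := (Set.finite_Iic (2 * N)).subset fun t ht => ht.2.1
  refine Nat.cast_le.2 (Set.ncard_le_ncard ?_ hfin)
  rintro t ⟨ht, ht'⟩
  have h4 := h3 t ht
  have h5 : ((Q.eval (t : ℤ)).toNat : ℤ) = Q.eval (t : ℤ) := Int.toNat_of_nonneg (by omega)
  have h6 : (((Q.eval (t : ℤ)).toNat : ℕ) : ℝ) = ((Q.eval (t : ℤ) : ℤ) : ℝ) := by
    exact_mod_cast congrArg (Int.cast (R := ℝ)) h5
  obtain ⟨h7, h8⟩ := Finset.mem_Ioc.1 ht
  refine ⟨h7, h8, (Q.eval (t : ℤ)).toNat, h5, fun r hr => hG r hr _ ?_⟩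
  rw [h6]
  exact ht' r hr

/-- the terms of progressions -/
theorem along_prog {G : ℕ → ℕ → Prop} {T : Finset ℕ} (hns : ∀ r ∈ T, ¬ IsSquare r)
    (hTT : ∀ r ∈ T, ∀ r' ∈ T, r ≠ r' → ¬ IsSquare (r * r')) {a b : ℕ → ℝ}
    (hab : ∀ r ∈ T, a r < b r ∧ b r ≤ a r + 1)
    (hG : ∀ r ∈ T, ∀ m : ℕ, (∃ z : ℤ, a r < √(r : ℝ) * m + √(r : ℝ) / 2 - z ∧
      √(r : ℝ) * m + √(r : ℝ) / 2 - z < b r) → G r m) {ε : ℝ} (hε : 0 < ε)
    {q : ℕ} (hq : 1 ≤ q) :
    ∃ L₀ : ℕ, ∀ L : ℕ, L₀ ≤ L → ∀ x : ℕ, (∏ r ∈ T, (b r - a r) - ε) * L ≤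
      (Set.ncard {i : ℕ | i < L ∧ ∀ r ∈ T, G r (x + q * i)} : ℝ) := by
  classical
  by_contra hcon
  push Not at hcon
  have h0 : ∀ L : ℕ, ∃ x : ℕ, (∃ y : ℕ, (Set.ncard {i : ℕ | i < L ∧ ∀ r ∈ T, G r (y + q * i)} : ℝ) <
      (∏ r ∈ T, (b r - a r) - ε) * L) →
        (Set.ncard {i : ℕ | i < L ∧ ∀ r ∈ T, G r (x + q * i)} : ℝ) <
          (∏ r ∈ T, (b r - a r) - ε) * L := by
    intro L
    by_cases h : ∃ y : ℕ, (Set.ncard {i : ℕ | i < L ∧ ∀ r ∈ T, G r (y + q * i)} : ℝ) <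
      (∏ r ∈ T, (b r - a r) - ε) * L
    · obtain ⟨y, hy⟩ := h
      exact ⟨y, fun _ => hy⟩
    · exact ⟨0, fun h' => absurd h' h⟩
  choose x hx using h0
  have h1 := product_seq (s := fun L => (Finset.range L).image fun i => x L + q * i)
    (v := fun n => (n : ℤ)) (fun θ hθ _ => smallTo_prog hq x hθ) hns hTT hab hε
  obtain ⟨L₀, hL₀⟩ := Filter.eventually_atTop.1 h1
  obtain ⟨L, hL, y, hy⟩ := hcon L₀
  have h2 := hL₀ L hL
  have h3 := hx L ⟨y, hy⟩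
  have hinj : Function.Injective (fun i => x L + q * i) := by
    intro i j hij
    have h4 : q * i = q * j := by
      have : x L + q * i = x L + q * j := hij
      omega
    exact Nat.eq_of_mul_eq_mul_left (by omega) h4
  rw [Finset.card_image_of_injective _ hinj, Finset.card_range] at h2
  refine absurd (h2.trans ?_) (not_le.2 h3)
  have hfin : {i : ℕ | i < L ∧ ∀ r ∈ T, G r (x L + q * i)}.Finite :=
    (Set.finite_Iio L).subset fun i hi => hi.1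
  refine Nat.cast_le.2 (le_trans (Set.ncard_le_ncard (t := (fun i => x L + q * i) ''
    {i : ℕ | i < L ∧ ∀ r ∈ T, G r (x L + q * i)}) ?_ (hfin.image _)) (Set.ncard_image_le hfin))
  rintro m ⟨hm, hm'⟩
  obtain ⟨i, hi, rfl⟩ := Finset.mem_image.1 hm
  refine ⟨i, ⟨Finset.mem_range.1 hi, fun r hr => hG r hr _ ?_⟩, rfl⟩
  have h5 := hm' r hr
  simpa using h5

theorem first :
    -- (1) the product formula
    (∀ ε : ℝ, 0 < ε → ∃ N : ℕ → ℕ, ∀ T : Finset ℕ, (∀ r ∈ T, 10 ≤ r) →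
      (∀ r ∈ T, ∀ r' ∈ T, r ≠ r' → ¬ IsSquare r → ¬ IsSquare r' → ¬ IsSquare (r * r')) →
      ∃ M₀ : ℕ, ∀ s : ℕ → ℕ, (∀ i, N i ≤ s i) → ∀ M : ℕ, M₀ ≤ M →
        (∏ r ∈ T, (1 - bad r) - ε) * M ≤
          (Set.ncard {m : ℕ | m < M ∧ Everywhere.{u} T s m} : ℝ)) ∧
    (∀ r : ℕ, 10 ≤ r → bad r < 1) ∧
    -- (2) dependent square roots
    (∀ T : Finset ℕ, (∀ r ∈ T, 10 ≤ r) →
      (∀ r ∈ T, ∀ r' ∈ T, r ≠ r' → ¬ IsSquare r → 17 ≤ r → r ≤ 45 → ¬ IsSquare (r * r')) →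
      ∃ κ : ℝ, 0 < κ ∧ ∃ N : ℕ → ℕ, ∃ M₀ : ℕ, ∀ s : ℕ → ℕ, (∀ i, N i ≤ s i) → ∀ M : ℕ, M₀ ≤ M →
        κ * M ≤ (Set.ncard {m : ℕ | m < M ∧ Everywhere.{u} T s m} : ℝ)) ∧
    -- (3) every characteristic
    (∃ M₀ : ℕ, ∀ M : ℕ, M₀ ≤ M → 0.0039 * M ≤
      (Set.ncard {m : ℕ | m < M ∧ ∀ r : ℕ, 10 ≤ r → r ≤ 16 → GoodAll.{u} r m} : ℝ)) ∧
    -- (4) almost all multiplicities, almost all numbers of points
    (∀ ε : ℝ, 0 < ε → ∃ R₀ : ℕ, ∀ R : ℕ, R₀ ≤ R → ∀ M : ℕ,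
      (Set.ncard {m : ℕ | m < M ∧
        ε * R ≤ Set.ncard {r : ℕ | 10 ≤ r ∧ r < R ∧ ¬ Good.{u} r m}} : ℝ) ≤ ε * M) := by
  classical
  have habd : ∀ r : ℕ, 10 ≤ r → (lo r - 1) / 2 < (1 - hi r) / 2 ∧
      (1 - hi r) / 2 ≤ (lo r - 1) / 2 + 1 := by
    intro r hr
    obtain ⟨h1, h2, h3⟩ := lohi hr
    constructor <;> linarith
  refine ⟨fun ε hε => ?_, fun r hr => ?_, fun T hT hTT => ?_, ?_, fun ε hε => ?_⟩
  · obtain ⟨N, -, hN⟩ := sparse_gen uniform.{u} (half_pos hε)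
    refine ⟨N, fun T hT hTT => ?_⟩
    obtain ⟨M₀, hM₀⟩ := product_gen (G := Good.{u}) (T := T.filter (fun r => ¬ IsSquare r))
      (a := fun r => (lo r - 1) / 2) (b := fun r => (1 - hi r) / 2)
      (fun r hr => (Finset.mem_filter.1 hr).2)
      (fun r hr r' hr' hne => hTT r (Finset.mem_filter.1 hr).1 r' (Finset.mem_filter.1 hr').1 hne
        (Finset.mem_filter.1 hr).2 (Finset.mem_filter.1 hr').2)
      (fun r hr => habd r (hT r (Finset.mem_filter.1 hr).1))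
      (fun r hr m h => good_arc (hT r (Finset.mem_filter.1 hr).1) m h) (half_pos hε)
    refine ⟨M₀, fun s hs M hM => ?_⟩
    have h1 := hM₀ M hM
    have e1 : ∏ r ∈ T.filter (fun r => ¬ IsSquare r), ((1 - hi r) / 2 - (lo r - 1) / 2) =
        ∏ r ∈ T, (1 - bad r) := by
      rw [Finset.prod_filter]
      refine Finset.prod_congr rfl fun r _ => ?_
      unfold bad
      by_cases h : IsSquare r
      · rw [if_neg (not_not.2 h), if_pos h, sub_zero]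
      · rw [if_pos h, if_neg h]
        ring
    rw [e1] at h1
    have h2 := combine hT h1 (hN s hs M)
    refine le_trans (le_of_eq ?_) h2
    ring
  · unfold bad
    split_ifs
    · norm_num
    · obtain ⟨-, -, h3⟩ := lohi hr
      linarith
  · obtain ⟨κ, hκ, M₀, hM₀⟩ := positive_mixed (G := Good.{u})
      (T₁ := T.filter (fun r => ¬ IsSquare r ∧ 17 ≤ r ∧ r ≤ 45))
      (T₂ := T.filter (fun r => ¬ IsSquare r ∧ ¬ (17 ≤ r ∧ r ≤ 45)))
      (a := fun r => (lo r - 1) / 2) (b := fun r => (1 - hi r) / 2)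
      (fun r hr => (Finset.mem_filter.1 hr).2.1) (fun r hr => (Finset.mem_filter.1 hr).2.1)
      (fun r hr r' hr' hne => by
        obtain ⟨h1, h2, h3, h4⟩ := Finset.mem_filter.1 hr
        exact hTT r h1 r' (Finset.mem_filter.1 hr').1 hne h2 h3 h4)
      (fun r hr r' hr' => by
        obtain ⟨h1, h2, h3, h4⟩ := Finset.mem_filter.1 hr
        obtain ⟨h5, -, h6⟩ := Finset.mem_filter.1 hr'
        exact hTT r h1 r' h5 (fun h => h6 (h ▸ ⟨h3, h4⟩)) h2 h3 h4)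
      (fun r hr => habd r (hT r (Finset.mem_filter.1 hr).1)) (ρ := 0.0007) (by norm_num)
      (fun r hr m h => good_arc (hT r (Finset.mem_filter.1 hr).1) m h)
      (fun r hr m h => by
        obtain ⟨hr1, hr2, hr3⟩ := Finset.mem_filter.1 hr
        have h10 := hT r hr1
        have h16 : r ≠ 16 := fun h => hr2 (h ▸ ⟨4, rfl⟩)
        obtain ⟨h4, h5⟩ := lohi_small h10 (by omega)
        obtain ⟨z, hz1, hz2⟩ := h
        exact good_arc h10 m ⟨z, by linarith, by linarith⟩)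
    obtain ⟨N, -, hN⟩ := sparse_gen uniform.{u} (half_pos hκ)
    refine ⟨κ / 2, half_pos hκ, N, M₀, fun s hs M hM => ?_⟩
    have hfin : {m : ℕ | m < M ∧ ∀ r ∈ T.filter (fun r => ¬ IsSquare r), Good.{u} r m}.Finite :=
      (Set.finite_Iio M).subset fun m hm => hm.1
    have hsub : {m : ℕ | m < M ∧
        (∀ r ∈ T.filter (fun r => ¬ IsSquare r ∧ 17 ≤ r ∧ r ≤ 45), Good.{u} r m) ∧
        ∀ r ∈ T.filter (fun r => ¬ IsSquare r ∧ ¬ (17 ≤ r ∧ r ≤ 45)), Good.{u} r m} ⊆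
        {m : ℕ | m < M ∧ ∀ r ∈ T.filter (fun r => ¬ IsSquare r), Good.{u} r m} := by
      rintro m ⟨hm, hm1, hm2⟩
      refine ⟨hm, fun r hr => ?_⟩
      obtain ⟨h1, h2⟩ := Finset.mem_filter.1 hr
      by_cases h : 17 ≤ r ∧ r ≤ 45
      · exact hm1 r (Finset.mem_filter.2 ⟨h1, h2, h⟩)
      · exact hm2 r (Finset.mem_filter.2 ⟨h1, h2, h⟩)
    have h1 : κ * M ≤ (Set.ncard {m : ℕ | m < M ∧
        ∀ r ∈ T.filter (fun r => ¬ IsSquare r), Good.{u} r m} : ℝ) := by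
      refine (hM₀ M hM).trans ?_
      exact_mod_cast Set.ncard_le_ncard hsub hfin
    have h2 := combine hT h1 (hN s hs M)
    refine le_trans (le_of_eq ?_) h2
    ring
  · have hpos := prod_pos_six
    obtain ⟨M₀, hM₀⟩ := product_gen (G := GoodAll.{u}) (T := Finset.Icc 10 15)
      (a := fun r => (Real.sqrt r - 4) / 2) (b := fun r => (4 - Real.sqrt r) / 2)
      (by decide +kernel) (by decide +kernel)
      (fun r hr => by
        obtain ⟨h1, h2⟩ := Finset.mem_Icc.1 hr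
        have h3 : 3 ≤ Real.sqrt r := sqrt_ge (by
          have : (10 : ℝ) ≤ r := by exact_mod_cast h1
          linarith)
        have h4 : Real.sqrt r < 4 := by
          rw [Real.sqrt_lt' (by norm_num)]
          have : (r : ℝ) ≤ 15 := by exact_mod_cast h2
          linarith
        constructor <;> linarith)
      (fun r hr m h => goodAll_arc (Finset.mem_Icc.1 hr).1 m h) (sub_pos.2 hpos)
    refine ⟨M₀, fun M hM => ?_⟩
    have h1 := hM₀ M hM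
    have e1 : ∏ r ∈ Finset.Icc 10 15, ((4 - Real.sqrt (r : ℕ)) / 2 - (Real.sqrt (r : ℕ) - 4) / 2) =
        ∏ r ∈ Finset.Icc 10 15, (4 - Real.sqrt (r : ℕ)) :=
      Finset.prod_congr rfl fun r _ => by ring
    rw [e1] at h1
    have e2 : (∏ r ∈ Finset.Icc 10 15, (4 - Real.sqrt (r : ℕ)) -
        (∏ r ∈ Finset.Icc 10 15, (4 - Real.sqrt (r : ℕ)) - 0.0039)) * (M : ℝ) = 0.0039 * M := by
      ring
    rw [e2] at h1
    refine h1.trans ?_
    have hfin : {m : ℕ | m < M ∧ ∀ r : ℕ, 10 ≤ r → r ≤ 16 → GoodAll.{u} r m}.Finite :=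
      (Set.finite_Iio M).subset fun m hm => hm.1
    have hsub : {m : ℕ | m < M ∧ ∀ r ∈ Finset.Icc 10 15, GoodAll.{u} r m} ⊆
        {m : ℕ | m < M ∧ ∀ r : ℕ, 10 ≤ r → r ≤ 16 → GoodAll.{u} r m} := by
      rintro m ⟨hm, hm'⟩
      refine ⟨hm, fun r hr1 hr2 => ?_⟩
      rcases Nat.lt_or_ge r 16 with h | h
      · exact hm' r (Finset.mem_Icc.2 ⟨hr1, by omega⟩)
      · have : r = 16 := by omega
        subst this
        exact goodAll_sixteen m
    exact_mod_cast Set.ncard_le_ncard hsub hfin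
  · exact pairs_gen uniform.{u} hε


theorem second :
    -- (1) all sequences with small Weyl sums
    (∀ (s : ℕ → Finset ℕ) (v : ℕ → ℕ), Weyl s v →
      (∀ T : Finset ℕ, (∀ r ∈ T, 10 ≤ r) →
        (∀ r ∈ T, ∀ r' ∈ T, r ≠ r' → ¬ IsSquare r → ¬ IsSquare r' → ¬ IsSquare (r * r')) →
        ∀ ε : ℝ, 0 < ε → ∃ N₀ : ℕ, ∀ N : ℕ, N₀ ≤ N → (∏ r ∈ T, (1 - bad r) - ε) * (s N).card ≤
          (Set.ncard {n : ℕ | n ∈ s N ∧ (∀ r ∈ T, Good.{u} r (v n)) ∧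
            ∀ r : ℕ, 10 ≤ r → IsSquare r → Good.{u} r (v n)} : ℝ)) ∧
      ∃ N₀ : ℕ, ∀ N : ℕ, N₀ ≤ N → 0.0039 * (s N).card ≤
        (Set.ncard {n : ℕ | n ∈ s N ∧ ∀ r : ℕ, 10 ≤ r → r ≤ 16 → GoodAll.{u} r (v n)} : ℝ)) ∧
    -- (2) polynomial multiplicities
    (∀ T : Finset ℕ, (∀ r ∈ T, 10 ≤ r) →
      (∀ r ∈ T, ∀ r' ∈ T, r ≠ r' → ¬ IsSquare r → ¬ IsSquare r' → ¬ IsSquare (r * r')) →
      ∀ Q : ℤ[X], 1 ≤ Q.natDegree → 0 < Q.leadingCoeff → ∀ ε : ℝ, 0 < ε →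
      ∃ N₀ : ℕ, ∀ N : ℕ, N₀ ≤ N → (∏ r ∈ T, (1 - bad r) - ε) * N ≤
        (Set.ncard {t : ℕ | N < t ∧ t ≤ 2 * N ∧ ∃ m : ℕ, (m : ℤ) = Q.eval (t : ℤ) ∧
          (∀ r ∈ T, Good.{u} r m) ∧ ∀ r : ℕ, 10 ≤ r → IsSquare r → Good.{u} r m} : ℝ)) ∧
    -- (3) every progression
    (∀ T : Finset ℕ, (∀ r ∈ T, 10 ≤ r) →
      (∀ r ∈ T, ∀ r' ∈ T, r ≠ r' → ¬ IsSquare r → ¬ IsSquare r' → ¬ IsSquare (r * r')) →
      ∀ q : ℕ, 1 ≤ q → ∀ ε : ℝ, 0 < ε →
      ∃ L₀ : ℕ, ∀ L : ℕ, L₀ ≤ L → ∀ x : ℕ, (∏ r ∈ T, (1 - bad r) - ε) * L ≤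
        (Set.ncard {i : ℕ | i < L ∧ (∀ r ∈ T, Good.{u} r (x + q * i)) ∧
          ∀ r : ℕ, 10 ≤ r → IsSquare r → Good.{u} r (x + q * i)} : ℝ)) ∧
    -- (4) every characteristic
    (∀ Q : ℤ[X], 1 ≤ Q.natDegree → 0 < Q.leadingCoeff →
      ∃ N₀ : ℕ, ∀ N : ℕ, N₀ ≤ N → 0.0039 * N ≤
        (Set.ncard {t : ℕ | N < t ∧ t ≤ 2 * N ∧ ∃ m : ℕ, (m : ℤ) = Q.eval (t : ℤ) ∧
          ∀ r : ℕ, 10 ≤ r → r ≤ 16 → GoodAll.{u} r m} : ℝ)) ∧
    (∀ q : ℕ, 1 ≤ q → ∃ L₀ : ℕ, ∀ L : ℕ, L₀ ≤ L → ∀ x : ℕ, 0.0039 * L ≤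
      (Set.ncard {i : ℕ | i < L ∧ ∀ r : ℕ, 10 ≤ r → r ≤ 16 → GoodAll.{u} r (x + q * i)} : ℝ)) := by
  classical
  have habd : ∀ r : ℕ, 10 ≤ r → (lo r - 1) / 2 < (1 - hi r) / 2 ∧
      (1 - hi r) / 2 ≤ (lo r - 1) / 2 + 1 := by
    intro r hr
    obtain ⟨h1, h2, h3⟩ := lohi hr
    constructor <;> linarith
  have hprod : ∀ T : Finset ℕ, ∏ r ∈ T.filter (fun r => ¬ IsSquare r),
      ((1 - hi r) / 2 - (lo r - 1) / 2) = ∏ r ∈ T, (1 - bad r) := by
    intro T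
    rw [Finset.prod_filter]
    refine Finset.prod_congr rfl fun r _ => ?_
    unfold bad
    by_cases h : IsSquare r
    · rw [if_neg (not_not.2 h), if_pos h, sub_zero]
    · rw [if_pos h, if_neg h]
      ring
  have hall : ∀ (T : Finset ℕ) (m : ℕ), (∀ r ∈ T, 10 ≤ r) →
      (∀ r ∈ T.filter (fun r => ¬ IsSquare r), Good.{u} r m) → ∀ r ∈ T, Good.{u} r m := by
    intro T m hT h r hr
    by_cases hsq : IsSquare r
    · exact good_sq m (hT r hr) hsq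
    · exact h r (Finset.mem_filter.2 ⟨hr, hsq⟩)
  have h6 : ∀ r ∈ (Finset.Icc 10 15 : Finset ℕ), (Real.sqrt r - 4) / 2 < (4 - Real.sqrt r) / 2 ∧
      (4 - Real.sqrt r) / 2 ≤ (Real.sqrt r - 4) / 2 + 1 := by
    intro r hr
    obtain ⟨h1, h2⟩ := Finset.mem_Icc.1 hr
    have h3 : 3 ≤ Real.sqrt r := sqrt_ge (by
      have : (10 : ℝ) ≤ r := by exact_mod_cast h1
      linarith)
    have h4 : Real.sqrt r < 4 := by
      rw [Real.sqrt_lt' (by norm_num)]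
      have : (r : ℝ) ≤ 15 := by exact_mod_cast h2
      linarith
    constructor <;> linarith
  have h7 : ∏ r ∈ Finset.Icc 10 15, ((4 - Real.sqrt (r : ℕ)) / 2 - (Real.sqrt (r : ℕ) - 4) / 2) =
      ∏ r ∈ Finset.Icc 10 15, (4 - Real.sqrt (r : ℕ)) :=
    Finset.prod_congr rfl fun r _ => by ring
  have h8 : ∀ x : ℝ, (∏ r ∈ Finset.Icc 10 15, (4 - Real.sqrt (r : ℕ)) -
      (∏ r ∈ Finset.Icc 10 15, (4 - Real.sqrt (r : ℕ)) - 0.0039)) * x = 0.0039 * x := by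
    intro x
    ring
  have h9 : ∀ m : ℕ, (∀ r ∈ Finset.Icc 10 15, GoodAll.{u} r m) →
      ∀ r : ℕ, 10 ≤ r → r ≤ 16 → GoodAll.{u} r m := by
    intro m hm' r hr1 hr2
    rcases Nat.lt_or_ge r 16 with h | h
    · exact hm' r (Finset.mem_Icc.2 ⟨hr1, by omega⟩)
    · have : r = 16 := by omega
      subst this
      exact goodAll_sixteen m
  refine ⟨fun s v hv => ⟨fun T hT hTT ε hε => ?_, ?_⟩, fun T hT hTT Q hQ hl ε hε => ?_, fun T hT hTT q hq ε hε => ?_,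
    fun Q hQ hl => ?_, fun q hq => ?_⟩
  · obtain ⟨N₀, hN₀⟩ := along_seq (G := Good.{u}) (T := T.filter (fun r => ¬ IsSquare r))
      (a := fun r => (lo r - 1) / 2) (b := fun r => (1 - hi r) / 2)
      (fun r hr => (Finset.mem_filter.1 hr).2)
      (fun r hr r' hr' hne => hTT r (Finset.mem_filter.1 hr).1 r' (Finset.mem_filter.1 hr').1 hne
        (Finset.mem_filter.1 hr).2 (Finset.mem_filter.1 hr').2)
      (fun r hr => habd r (hT r (Finset.mem_filter.1 hr).1))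
      (fun r hr m h => good_arc (hT r (Finset.mem_filter.1 hr).1) m h) hε hv
    refine ⟨N₀, fun N hN => ?_⟩
    have h1 := hN₀ N hN
    rw [hprod] at h1
    refine h1.trans (Nat.cast_le.2 (Set.ncard_le_ncard ?_
      ((Finset.finite_toSet (s N)).subset fun t ht => ht.1)))
    rintro n ⟨hn1, hn2⟩
    exact ⟨hn1, hall T _ hT hn2, fun r hr hsq => good_sq _ hr hsq⟩
  · obtain ⟨N₀, hN₀⟩ := along_seq (G := GoodAll.{u}) (T := Finset.Icc 10 15)
      (a := fun r => (Real.sqrt r - 4) / 2) (b := fun r => (4 - Real.sqrt r) / 2)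
      (by decide +kernel) (by decide +kernel) h6
      (fun r hr m h => goodAll_arc (Finset.mem_Icc.1 hr).1 m h) (sub_pos.2 prod_pos_six) hv
    refine ⟨N₀, fun N hN => ?_⟩
    have h1 := hN₀ N hN
    rw [h7, h8] at h1
    refine h1.trans (Nat.cast_le.2 (Set.ncard_le_ncard ?_
      ((Finset.finite_toSet (s N)).subset fun t ht => ht.1)))
    rintro n ⟨hn1, hn2⟩
    exact ⟨hn1, h9 _ hn2⟩
  · obtain ⟨N₀, hN₀⟩ := along_poly (G := Good.{u}) (T := T.filter (fun r => ¬ IsSquare r))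
      (a := fun r => (lo r - 1) / 2) (b := fun r => (1 - hi r) / 2)
      (fun r hr => (Finset.mem_filter.1 hr).2)
      (fun r hr r' hr' hne => hTT r (Finset.mem_filter.1 hr).1 r' (Finset.mem_filter.1 hr').1 hne
        (Finset.mem_filter.1 hr).2 (Finset.mem_filter.1 hr').2)
      (fun r hr => habd r (hT r (Finset.mem_filter.1 hr).1))
      (fun r hr m h => good_arc (hT r (Finset.mem_filter.1 hr).1) m h) hε hQ hl
    refine ⟨N₀, fun N hN => ?_⟩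
    have h1 := hN₀ N hN
    rw [hprod] at h1
    refine h1.trans (Nat.cast_le.2 (Set.ncard_le_ncard ?_
      ((Set.finite_Iic (2 * N)).subset fun t ht => ht.2.1)))
    rintro t ⟨ht1, ht2, m, hm, ht3⟩
    exact ⟨ht1, ht2, m, hm, hall T m hT ht3, fun r hr hsq => good_sq m hr hsq⟩
  · obtain ⟨L₀, hL₀⟩ := along_prog (G := Good.{u}) (T := T.filter (fun r => ¬ IsSquare r))
      (a := fun r => (lo r - 1) / 2) (b := fun r => (1 - hi r) / 2)
      (fun r hr => (Finset.mem_filter.1 hr).2)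
      (fun r hr r' hr' hne => hTT r (Finset.mem_filter.1 hr).1 r' (Finset.mem_filter.1 hr').1 hne
        (Finset.mem_filter.1 hr).2 (Finset.mem_filter.1 hr').2)
      (fun r hr => habd r (hT r (Finset.mem_filter.1 hr).1))
      (fun r hr m h => good_arc (hT r (Finset.mem_filter.1 hr).1) m h) hε hq
    refine ⟨L₀, fun L hL x => ?_⟩
    have h1 := hL₀ L hL x
    rw [hprod] at h1
    refine h1.trans (Nat.cast_le.2 (Set.ncard_le_ncard ?_
      ((Set.finite_Iio L).subset fun t ht => ht.1)))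
    rintro i ⟨hi1, hi2⟩
    exact ⟨hi1, hall T _ hT hi2, fun r hr hsq => good_sq _ hr hsq⟩
  · obtain ⟨N₀, hN₀⟩ := along_poly (G := GoodAll.{u}) (T := Finset.Icc 10 15)
      (a := fun r => (Real.sqrt r - 4) / 2) (b := fun r => (4 - Real.sqrt r) / 2)
      (by decide +kernel) (by decide +kernel) h6
      (fun r hr m h => goodAll_arc (Finset.mem_Icc.1 hr).1 m h) (sub_pos.2 prod_pos_six) hQ hl
    refine ⟨N₀, fun N hN => ?_⟩
    have h1 := hN₀ N hN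
    rw [h7, h8] at h1
    refine h1.trans (Nat.cast_le.2 (Set.ncard_le_ncard ?_
      ((Set.finite_Iic (2 * N)).subset fun t ht => ht.2.1)))
    rintro t ⟨ht1, ht2, m, hm, ht3⟩
    exact ⟨ht1, ht2, m, hm, h9 m ht3⟩
  · obtain ⟨L₀, hL₀⟩ := along_prog (G := GoodAll.{u}) (T := Finset.Icc 10 15)
      (a := fun r => (Real.sqrt r - 4) / 2) (b := fun r => (4 - Real.sqrt r) / 2)
      (by decide +kernel) (by decide +kernel) h6
      (fun r hr m h => goodAll_arc (Finset.mem_Icc.1 hr).1 m h) (sub_pos.2 prod_pos_six) hq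
    refine ⟨L₀, fun L hL x => ?_⟩
    have h1 := hL₀ L hL x
    rw [h7, h8] at h1
    refine h1.trans (Nat.cast_le.2 (Set.ncard_le_ncard ?_
      ((Set.finite_Iio L).subset fun t ht => ht.1)))
    rintro i ⟨hi1, hi2⟩
    exact ⟨hi1, h9 _ hi2⟩


theorem result :
    (
    -- (1) the product formula
    (∀ ε : ℝ, 0 < ε → ∃ N : ℕ → ℕ, ∀ T : Finset ℕ, (∀ r ∈ T, 10 ≤ r) →
      (∀ r ∈ T, ∀ r' ∈ T, r ≠ r' → ¬ IsSquare r → ¬ IsSquare r' → ¬ IsSquare (r * r')) →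
      ∃ M₀ : ℕ, ∀ s : ℕ → ℕ, (∀ i, N i ≤ s i) → ∀ M : ℕ, M₀ ≤ M →
        (∏ r ∈ T, (1 - bad r) - ε) * M ≤
          (Set.ncard {m : ℕ | m < M ∧ Everywhere.{u} T s m} : ℝ)) ∧
    (∀ r : ℕ, 10 ≤ r → bad r < 1) ∧
    -- (2) dependent square roots
    (∀ T : Finset ℕ, (∀ r ∈ T, 10 ≤ r) →
      (∀ r ∈ T, ∀ r' ∈ T, r ≠ r' → ¬ IsSquare r → 17 ≤ r → r ≤ 45 → ¬ IsSquare (r * r')) →
      ∃ κ : ℝ, 0 < κ ∧ ∃ N : ℕ → ℕ, ∃ M₀ : ℕ, ∀ s : ℕ → ℕ, (∀ i, N i ≤ s i) → ∀ M : ℕ, M₀ ≤ M →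
        κ * M ≤ (Set.ncard {m : ℕ | m < M ∧ Everywhere.{u} T s m} : ℝ)) ∧
    -- (3) every characteristic
    (∃ M₀ : ℕ, ∀ M : ℕ, M₀ ≤ M → 0.0039 * M ≤
      (Set.ncard {m : ℕ | m < M ∧ ∀ r : ℕ, 10 ≤ r → r ≤ 16 → GoodAll.{u} r m} : ℝ)) ∧
    -- (4) almost all multiplicities, almost all numbers of points
    (∀ ε : ℝ, 0 < ε → ∃ R₀ : ℕ, ∀ R : ℕ, R₀ ≤ R → ∀ M : ℕ,
      (Set.ncard {m : ℕ | m < M ∧
        ε * R ≤ Set.ncard {r : ℕ | 10 ≤ r ∧ r < R ∧ ¬ Good.{u} r m}} : ℝ) ≤ ε * M)) ∧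
    (
    -- (5) all sequences with small Weyl sums
    (∀ (s : ℕ → Finset ℕ) (v : ℕ → ℕ), Weyl s v →
      (∀ T : Finset ℕ, (∀ r ∈ T, 10 ≤ r) →
        (∀ r ∈ T, ∀ r' ∈ T, r ≠ r' → ¬ IsSquare r → ¬ IsSquare r' → ¬ IsSquare (r * r')) →
        ∀ ε : ℝ, 0 < ε → ∃ N₀ : ℕ, ∀ N : ℕ, N₀ ≤ N → (∏ r ∈ T, (1 - bad r) - ε) * (s N).card ≤
          (Set.ncard {n : ℕ | n ∈ s N ∧ (∀ r ∈ T, Good.{u} r (v n)) ∧
            ∀ r : ℕ, 10 ≤ r → IsSquare r → Good.{u} r (v n)} : ℝ)) ∧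
      ∃ N₀ : ℕ, ∀ N : ℕ, N₀ ≤ N → 0.0039 * (s N).card ≤
        (Set.ncard {n : ℕ | n ∈ s N ∧ ∀ r : ℕ, 10 ≤ r → r ≤ 16 → GoodAll.{u} r (v n)} : ℝ)) ∧
    -- (6) polynomial multiplicities
    (∀ T : Finset ℕ, (∀ r ∈ T, 10 ≤ r) →
      (∀ r ∈ T, ∀ r' ∈ T, r ≠ r' → ¬ IsSquare r → ¬ IsSquare r' → ¬ IsSquare (r * r')) →
      ∀ Q : ℤ[X], 1 ≤ Q.natDegree → 0 < Q.leadingCoeff → ∀ ε : ℝ, 0 < ε →
      ∃ N₀ : ℕ, ∀ N : ℕ, N₀ ≤ N → (∏ r ∈ T, (1 - bad r) - ε) * N ≤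
        (Set.ncard {t : ℕ | N < t ∧ t ≤ 2 * N ∧ ∃ m : ℕ, (m : ℤ) = Q.eval (t : ℤ) ∧
          (∀ r ∈ T, Good.{u} r m) ∧ ∀ r : ℕ, 10 ≤ r → IsSquare r → Good.{u} r m} : ℝ)) ∧
    -- (7) every progression
    (∀ T : Finset ℕ, (∀ r ∈ T, 10 ≤ r) →
      (∀ r ∈ T, ∀ r' ∈ T, r ≠ r' → ¬ IsSquare r → ¬ IsSquare r' → ¬ IsSquare (r * r')) →
      ∀ q : ℕ, 1 ≤ q → ∀ ε : ℝ, 0 < ε →
      ∃ L₀ : ℕ, ∀ L : ℕ, L₀ ≤ L → ∀ x : ℕ, (∏ r ∈ T, (1 - bad r) - ε) * L ≤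
        (Set.ncard {i : ℕ | i < L ∧ (∀ r ∈ T, Good.{u} r (x + q * i)) ∧
          ∀ r : ℕ, 10 ≤ r → IsSquare r → Good.{u} r (x + q * i)} : ℝ)) ∧
    -- (8) every characteristic
    (∀ Q : ℤ[X], 1 ≤ Q.natDegree → 0 < Q.leadingCoeff →
      ∃ N₀ : ℕ, ∀ N : ℕ, N₀ ≤ N → 0.0039 * N ≤
        (Set.ncard {t : ℕ | N < t ∧ t ≤ 2 * N ∧ ∃ m : ℕ, (m : ℤ) = Q.eval (t : ℤ) ∧
          ∀ r : ℕ, 10 ≤ r → r ≤ 16 → GoodAll.{u} r m} : ℝ)) ∧
    (∀ q : ℕ, 1 ≤ q → ∃ L₀ : ℕ, ∀ L : ℕ, L₀ ≤ L → ∀ x : ℕ, 0.0039 * L ≤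
      (Set.ncard {i : ℕ | i < L ∧ ∀ r : ℕ, 10 ≤ r → r ≤ 16 → GoodAll.{u} r (x + q * i)} : ℝ))) :=
  ⟨first, second⟩

end Pool.Agent.Results.MP_e6aa12_ag.SimultaneousNumbersOfPoints
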